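import Pool.Agent.Helper26.Wn.Lin
import Pool.Graph.R_pool_sql_team_seeded_b3bd081e.H541R3.AND.Model

/-! # The velocity -/

set_option autoImplicit false
set_option linter.unusedSectionVars false

open MeasureTheory Filter Topology
open scoped ENNReal NNReal ComplexConjugate InnerProductSpace

namespace Pool.Agent.Helper26.Wn

open Pool.Agent.H5R2.NB Pool.Agent.Helper26.Nb Pool.Agent.Helper26.Cm Pool.Agent.Helper26.Dj
  Pool.Agent.Helper26.Rg

variable {d : ℕ} {c : ℝ} {ev : (Site d → ℝ) → UG (L2 (Site d))} {μ : Measure ℝ}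
  [IsProbabilityMeasure μ]

lemma cv_vel {j : Fin d} {v : L2 (Site d) →L[ℂ] L2 (Site d)} (hv : IsVel c j v) :
    Cv fun _ : Site d → ℝ => v := by
  refine ⟨fun z S hS V ψ => ?_, fun x y => measurable_const, ‖v‖, fun V => le_rfl⟩
  ext x
  rw [hv, hS, hS, hS, hv]
  have e1 : x + Pi.single j 1 + z = x + z + Pi.single j 1 := by abel
  have e2 : x - Pi.single j 1 + z = x + z - Pi.single j 1 := by abel
  rw [e1, e2]

theorem vel_zero (hev : ∀ V, IsGrp c V (ev V)) {l o : ℝ} (hl : l ≠ 0) {C : ℝ≥0}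
    (hμ : μ ≤ C • volume) {j : Fin d} {v : L2 (Site d) →L[ℂ] L2 (Site d)} (hv : IsVel c j v) :
    Tendsto (fun N : ℕ => ∫⁻ V, ‖gP (ev (pot (af l o) V)) (ev (pot (af l o) V)) v N
      (dl 0)‖ₑ ^ 2 ∂(Measure.infinitePi fun _ : Site d => μ)) atTop (𝓝 0) := by
  set ν := μ.map (af l o) with hν
  have hpr : IsProbabilityMeasure ν := Measure.isProbabilityMeasure_map (af_cont l o).aemeasurable
  obtain ⟨C', hC'⟩ : ∃ C' : ℝ≥0, ν ≤ C' • volume :=
    Pool.Agent.H541R3.AND.Model.dens l o hl μ C hμ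
  obtain ⟨Nk, b, hNk, hL2, hgood⟩ := ALL.a_LIM d c ev hev ν j v hv
  have hzero := ALL.a_ZERO d c ev hev ν C' hC' j v hv Nk hNk (by
    filter_upwards [hgood] with V hV
    obtain ⟨B, hB, -⟩ := hV
    exact ⟨B, hB⟩)
  have h1 : Tendsto (fun N : ℕ => ∫⁻ V, ‖gP (ev V) (ev V) v N (dl 0)‖ₑ ^ 2
      ∂(Measure.infinitePi fun _ : Site d => ν)) atTop (𝓝 0) := by
    refine hL2.congr fun N => ?_
    refine lintegral_congr_ae ?_
    filter_upwards [hgood, hzero] with V hV hV2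
    obtain ⟨B, hB, hBb⟩ := hV
    have h0 : b V = 0 := by rw [← hBb]; exact hV2 B hB
    rw [h0, sub_zero]
    rfl
  refine h1.congr fun N => ?_
  have hmp := af_mp (d := d) l o μ
  have hc0 : StronglyMeasurable fun _ : Site d → ℝ => (dl 0 : L2 (Site d)) :=
    stronglyMeasurable_const
  have hm : Measurable fun V : Site d → ℝ => ‖gP (ev V) (ev V) v N (dl 0)‖ₑ ^ 2 :=
    ((sm_gP (ce_id hev) (ce_id hev) (cv_vel hv) hc0 N).enorm).pow_const 2
  rw [← hmp.lintegral_comp hm]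

end Pool.Agent.Helper26.Wn
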