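import Pool.Agent.Helper26.Wn.Wif

/-! # Weak mixing relative to the mean -/

set_option autoImplicit false
set_option linter.unusedSectionVars false

open MeasureTheory Filter Topology
open scoped ENNReal NNReal ComplexConjugate InnerProductSpace

namespace Pool.Agent.Helper26.Wn

variable {X : Type} [NormedAddCommGroup X] [InnerProductSpace ℂ X] [CompleteSpace X] {a : ℝ → X}

lemma mean_const (h : Stn a) {b : X}
    (hb : Tendsto (fun N : ℕ => ((N : ℂ)⁻¹) • ∫ s in (0 : ℝ)..N, a s) atTop (𝓝 b)) (s : ℝ) :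
    ⟪a s, b⟫_ℂ = ⟪a 0, b⟫_ℂ := by
  have e1 : ∀ (r : ℝ) (N : ℕ), ⟪a r, ((N : ℂ)⁻¹) • ∫ t in (0 : ℝ)..N, a t⟫_ℂ =
      (N : ℂ)⁻¹ * ∫ u in (-r)..(N - r), ⟪a 0, a u⟫_ℂ := by
    intro r N
    rw [inner_smul_right]
    congr 1
    have h2 : ⟪a r, ∫ t in (0 : ℝ)..N, a t⟫_ℂ = ∫ t in (0 : ℝ)..N, ⟪a r, a t⟫_ℂ :=
      ((innerSL ℂ (a r)).intervalIntegral_comp_comm (h.ct.intervalIntegrable _ _)).symm
    rw [h2]
    have h3 : ∀ t : ℝ, ⟪a r, a t⟫_ℂ = ⟪a 0, a (t - r)⟫_ℂ := fun t => h.inn r t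
    simp only [h3]
    have h4 := intervalIntegral.integral_comp_sub_right (a := 0) (b := N)
      (fun u => ⟪a 0, a u⟫_ℂ) r
    rw [h4, zero_sub]
  have h1 : ∀ r : ℝ, Tendsto (fun N : ℕ => (N : ℂ)⁻¹ * ∫ u in (-r)..(N - r), ⟪a 0, a u⟫_ℂ) atTop
      (𝓝 ⟪a r, b⟫_ℂ) := by
    intro r
    have h2 : Tendsto (fun N : ℕ => ⟪a r, ((N : ℂ)⁻¹) • ∫ t in (0 : ℝ)..N, a t⟫_ℂ) atTop
        (𝓝 ⟪a r, b⟫_ℂ) := tendsto_const_nhds.inner hb
    exact h2.congr fun N => e1 r N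
  have h2 := (h1 s).sub (h1 0)
  have h3 : Tendsto (fun N : ℕ => (N : ℂ)⁻¹ * (∫ u in (-s)..(N - s), ⟪a 0, a u⟫_ℂ) -
      (N : ℂ)⁻¹ * ∫ u in (-(0 : ℝ))..(N - 0), ⟪a 0, a u⟫_ℂ) atTop (𝓝 0) := by
    have h4 : Tendsto (fun N : ℕ => (N : ℝ)⁻¹ * (2 * (‖a 0‖ ^ 2 * |s|))) atTop (𝓝 0) := by
      have := (tendsto_inv_atTop_nhds_zero_nat (𝕜 := ℝ)).mul_const (2 * (‖a 0‖ ^ 2 * |s|))
      rwa [zero_mul] at this
    refine squeeze_zero_norm (fun N => ?_) h4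
    have hi : ∀ p q : ℝ, IntervalIntegrable (fun u => ⟪a 0, a u⟫_ℂ) volume p q := fun p q =>
      h.ctC.intervalIntegrable _ _
    have e2 : (∫ u in (-s)..(N - s), ⟪a 0, a u⟫_ℂ) - ∫ u in (-(0 : ℝ))..(N - 0), ⟪a 0, a u⟫_ℂ =
        (∫ u in (-s)..(-(0 : ℝ)), ⟪a 0, a u⟫_ℂ) - ∫ u in (N - s)..(N - 0), ⟪a 0, a u⟫_ℂ := by
      have e3 := intervalIntegral.integral_add_adjacent_intervals (hi (-s) (N - s))
        (hi (N - s) (N - 0))
      have e4 := intervalIntegral.integral_add_adjacent_intervals (hi (-s) (-(0 : ℝ)))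
        (hi (-(0 : ℝ)) (N - 0))
      rw [← e4] at e3
      linear_combination e3
    rw [← mul_sub, e2, norm_mul, norm_inv, Complex.norm_natCast]
    gcongr
    have b1 : ‖∫ u in (-s)..(-(0 : ℝ)), ⟪a 0, a u⟫_ℂ‖ ≤ ‖a 0‖ ^ 2 * |s| := by
      have := intervalIntegral.norm_integral_le_of_norm_le_const (a := -s) (b := -(0 : ℝ))
        (C := ‖a 0‖ ^ 2) (f := fun u => ⟪a 0, a u⟫_ℂ) (fun u _ => h.nC u)
      simpa using this
    have b2 : ‖∫ u in ((N : ℝ) - s)..(N - 0), ⟪a 0, a u⟫_ℂ‖ ≤ ‖a 0‖ ^ 2 * |s| := by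
      have := intervalIntegral.norm_integral_le_of_norm_le_const (a := (N : ℝ) - s)
        (b := (N : ℝ) - 0) (C := ‖a 0‖ ^ 2) (f := fun u => ⟪a 0, a u⟫_ℂ) (fun u _ => h.nC u)
      simpa using this
    refine (norm_sub_le _ _).trans ?_
    linarith
  have h4 := tendsto_nhds_unique h2 h3
  exact sub_eq_zero.1 h4

lemma stn_sub (h : Stn a) {b : X}
    (hb : Tendsto (fun N : ℕ => ((N : ℂ)⁻¹) • ∫ s in (0 : ℝ)..N, a s) atTop (𝓝 b)) :
    Stn fun s => a s - b := by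
  refine ⟨h.ct.sub continuous_const, fun s t r => ?_⟩
  have h1 : ∀ s, ⟪b, a s⟫_ℂ = ⟪b, a 0⟫_ℂ := by
    intro s
    rw [← inner_conj_symm, mean_const h hb s, inner_conj_symm]
  rw [inner_sub_left, inner_sub_right, inner_sub_right, inner_sub_left, inner_sub_right,
    inner_sub_right, h.st, mean_const h hb (s + r), mean_const h hb s, h1 (t + r), h1 t]

lemma ex_int {x : ℝ} (hx : x ≠ 0) (N : ℝ) :
    ‖∫ s in (0 : ℝ)..N, Complex.exp (Complex.I * x * s)‖ ≤ 2 / |x| := by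
  have hx' : Complex.I * x ≠ 0 := mul_ne_zero Complex.I_ne_zero (by exact_mod_cast hx)
  rw [integral_exp_mul_complex hx', norm_div, norm_mul, Complex.norm_I, one_mul, Complex.norm_real,
    Real.norm_eq_abs]
  gcongr
  refine (norm_sub_le _ _).trans ?_
  rw [norm_ex, norm_ex]
  norm_num

lemma avg_sub (h : Stn a) {b : X}
    (hb : Tendsto (fun N : ℕ => ((N : ℂ)⁻¹) • ∫ s in (0 : ℝ)..N, a s) atTop (𝓝 b))
    (hz : ∀ x : ℝ, x ≠ 0 → Tendsto (fun N : ℕ => ‖fa a N x‖ / N) atTop (𝓝 0)) (x : ℝ) :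
    Tendsto (fun N : ℕ => ‖fa (fun s => a s - b) N x‖ / N) atTop (𝓝 0) := by
  have e : ∀ N : ℝ, fa (fun s => a s - b) N x = fa a N x -
      (∫ s in (0 : ℝ)..N, Complex.exp (Complex.I * x * s)) • b := by
    intro N
    have h1 : (∫ s in (0 : ℝ)..N, Complex.exp (Complex.I * x * s)) • b =
        ∫ s in (0 : ℝ)..N, Complex.exp (Complex.I * x * s) • b :=
      (intervalIntegral.integral_smul_const _ _).symm
    have i2 : IntervalIntegrable (fun s : ℝ => Complex.exp (Complex.I * x * s) • b) volume 0 N :=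
      (by fun_prop : Continuous fun s : ℝ => Complex.exp (Complex.I * x * s) • b).intervalIntegrable
        _ _
    unfold fa
    rw [h1, ← intervalIntegral.integral_sub ((ci h.ct x).intervalIntegrable _ _) i2]
    refine intervalIntegral.integral_congr fun s _ => ?_
    exact smul_sub _ _ _
  by_cases hx : x = 0
  · subst hx
    have h2 := (hb.sub_const b).norm
    rw [sub_self, norm_zero] at h2
    refine h2.congr' ?_
    filter_upwards [eventually_gt_atTop 0] with N hN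
    have hN0 : (N : ℂ) ≠ 0 := by exact_mod_cast hN.ne'
    rw [e]
    have e2 : fa a N 0 = ∫ s in (0 : ℝ)..N, a s := by
      unfold fa
      refine intervalIntegral.integral_congr fun s _ => ?_
      simp
    have e3 : ∫ s in (0 : ℝ)..N, Complex.exp (Complex.I * (0 : ℝ) * s) = N := by
      simp
    rw [e2, e3]
    have e4 : ((N : ℂ)⁻¹) • (∫ s in (0 : ℝ)..N, a s) - b =
        ((N : ℂ)⁻¹) • ((∫ s in (0 : ℝ)..N, a s) - (N : ℂ) • b) := by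
      rw [smul_sub, smul_smul, inv_mul_cancel₀ hN0, one_smul]
    rw [e4, norm_smul, norm_inv, Complex.norm_natCast, div_eq_inv_mul]
  · have h1 := hz x hx
    have h2 : Tendsto (fun N : ℕ => 2 / |x| * ‖b‖ / (N : ℝ)) atTop (𝓝 0) :=
      tendsto_const_nhds.div_atTop tendsto_natCast_atTop_atTop
    have h3 := h1.add h2
    rw [add_zero] at h3
    refine tendsto_of_tendsto_of_tendsto_of_le_of_le tendsto_const_nhds h3
      (fun N => by positivity) fun N => ?_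
    simp only
    rw [← add_div, e]
    gcongr
    refine (norm_sub_le _ _).trans ?_
    gcongr
    rw [norm_smul]
    gcongr
    exact ex_int hx _

/-- weak mixing relative to the mean -/
theorem wie3 (h : Stn a) {b : X}
    (hb : Tendsto (fun N : ℕ => ((N : ℂ)⁻¹) • ∫ s in (0 : ℝ)..N, a s) atTop (𝓝 b))
    (hz : ∀ x : ℝ, x ≠ 0 → Tendsto (fun N : ℕ => ‖fa a N x‖ / N) atTop (𝓝 0))
    (φ : X) {ε : ℝ} (hε : 0 < ε) : ∃ M₀ : ℝ, 0 < M₀ ∧ ∀ M, M₀ ≤ M →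
      ∫ u in (0 : ℝ)..M, ‖⟪φ, a u⟫_ℂ - ⟪φ, b⟫_ℂ‖ ^ 2 ≤ ε * M := by
  obtain ⟨M₀, hM₀, hM⟩ := wie2 (stn_sub h hb) (fun x => avg_sub h hb hz x) φ hε
  refine ⟨M₀, hM₀, fun M hMM => ?_⟩
  have := hM M hMM
  simpa only [inner_sub_right] using this

lemma fa_zero (a : ℝ → X) (N : ℝ) : fa a N 0 = ∫ s in (0 : ℝ)..N, a s := by
  unfold fa
  refine intervalIntegral.integral_congr fun s _ => ?_
  simp

theorem wie4 (h : Stn a) {b : X}
    (hb : Tendsto (fun N : ℕ => ((N : ℂ)⁻¹) • fa a N 0) atTop (𝓝 b))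
    (hz : ∀ x : ℝ, x ≠ 0 → Tendsto (fun N : ℕ => ‖fa a N x‖ / N) atTop (𝓝 0))
    (φ : X) {ε : ℝ} (hε : 0 < ε) : ∃ M₀ : ℝ, 0 < M₀ ∧ ∀ M, M₀ ≤ M →
      ∫ u in (0 : ℝ)..M, ‖⟪φ, a u⟫_ℂ - ⟪φ, b⟫_ℂ‖ ^ 2 ≤ ε * M := by
  simp only [fa_zero] at hb
  exact wie3 h hb hz φ hε

end Pool.Agent.Helper26.Wn
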