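import Pool.Agent.Helper26.Wn.Wie

/-! # Correlations with arbitrary vectors -/

set_option autoImplicit false
set_option linter.unusedSectionVars false

open MeasureTheory Filter Topology
open scoped ENNReal NNReal ComplexConjugate InnerProductSpace

namespace Pool.Agent.Helper26.Wn

variable {X : Type} [NormedAddCommGroup X] [InnerProductSpace ℂ X] [CompleteSpace X] {a : ℝ → X}

lemma c_even (h : Stn a) (u : ℝ) : ‖⟪a 0, a (-u)⟫_ℂ‖ = ‖⟪a 0, a u⟫_ℂ‖ := by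
  have h1 := h.inn u 0
  rw [zero_sub] at h1
  rw [← h1, norm_inner_symm]

lemma int_abs (h : Stn a) (hz : ∀ x : ℝ, Tendsto (fun N : ℕ => ‖fa a N x‖ / N) atTop (𝓝 0))
    {κ : ℝ} (hκ : 0 < κ) : ∃ M₀ : ℝ, 0 < M₀ ∧ ∀ M, M₀ ≤ M →
      ∫ u in (0 : ℝ)..M, ‖⟪a 0, a u⟫_ℂ‖ ≤ κ * M := by
  obtain ⟨M₀, hM₀, hM⟩ := wie1 h hz (ε := κ ^ 2) (by positivity)
  refine ⟨M₀, hM₀, fun M hMM => ?_⟩
  have hM0 : 0 < M := hM₀.trans_le hMM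
  have h1 := hM M hMM
  have hc1 : Continuous fun u => ‖⟪a 0, a u⟫_ℂ‖ := h.ctC.norm
  have hc2 : Continuous fun u => ‖⟪a 0, a u⟫_ℂ‖ ^ 2 := hc1.pow 2
  have h2 : ∫ u in (0 : ℝ)..M, ‖⟪a 0, a u⟫_ℂ‖ ≤
      ∫ u in (0 : ℝ)..M, (κ / 2 + ‖⟪a 0, a u⟫_ℂ‖ ^ 2 / (2 * κ)) := by
    refine intervalIntegral.integral_mono_on hM0.le (hc1.intervalIntegrable _ _)
      ((continuous_const.add (hc2.div_const _)).intervalIntegrable _ _) fun u _ => ?_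
    have h3 : 0 ≤ (‖⟪a 0, a u⟫_ℂ‖ - κ) ^ 2 := sq_nonneg _
    have h4 : κ / 2 + ‖⟪a 0, a u⟫_ℂ‖ ^ 2 / (2 * κ) - ‖⟪a 0, a u⟫_ℂ‖ =
        (‖⟪a 0, a u⟫_ℂ‖ - κ) ^ 2 / (2 * κ) := by
      field_simp
      ring
    have h5 : 0 ≤ (‖⟪a 0, a u⟫_ℂ‖ - κ) ^ 2 / (2 * κ) := by positivity
    linarith
  rw [intervalIntegral.integral_add (continuous_const.intervalIntegrable _ _)
    ((hc2.div_const _).intervalIntegrable _ _), intervalIntegral.integral_const,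
    intervalIntegral.integral_div, sub_zero, smul_eq_mul] at h2
  calc _ ≤ M * (κ / 2) + (∫ u in (0 : ℝ)..M, ‖⟪a 0, a u⟫_ℂ‖ ^ 2) / (2 * κ) := h2
    _ ≤ M * (κ / 2) + (κ ^ 2 * M) / (2 * κ) := by gcongr
    _ = κ * M := by field_simp; ring

/-- **Weak mixing**: correlations tend to zero in the mean square -/
theorem wie2 (h : Stn a) (hz : ∀ x : ℝ, Tendsto (fun N : ℕ => ‖fa a N x‖ / N) atTop (𝓝 0))
    (φ : X) {ε : ℝ} (hε : 0 < ε) : ∃ M₀ : ℝ, 0 < M₀ ∧ ∀ M, M₀ ≤ M →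
      ∫ u in (0 : ℝ)..M, ‖⟪φ, a u⟫_ℂ‖ ^ 2 ≤ ε * M := by
  set B : ℝ := ‖a 0‖ * ‖φ‖ with hB
  have hB0 : 0 ≤ B := by positivity
  set κ : ℝ := ε ^ 2 / (2 * (‖φ‖ ^ 2 * B ^ 2 + 1)) with hκ
  have hκ0 : 0 < κ := by positivity
  obtain ⟨M₀, hM₀, hM⟩ := int_abs h hz hκ0
  refine ⟨M₀, hM₀, fun M hMM => ?_⟩
  have hM0 : 0 < M := hM₀.trans_le hMM
  have h1 := hM M hMM
  have hcc : Continuous fun s => ⟪a s, φ⟫_ℂ := h.ct.inner continuous_const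
  set y := ∫ s in (0 : ℝ)..M, ⟪a s, φ⟫_ℂ • a s with hy
  have hcB : ∀ s, ‖⟪a s, φ⟫_ℂ‖ ≤ B := by
    intro s
    refine (norm_inner_le_norm _ _).trans ?_
    rw [h.nrm s]
  -- the norm of `y`
  have hC1 : Continuous fun u => ‖⟪a 0, a u⟫_ℂ‖ := h.ctC.norm
  have hev : ∫ u in (-M)..M, ‖⟪a 0, a u⟫_ℂ‖ = 2 * ∫ u in (0 : ℝ)..M, ‖⟪a 0, a u⟫_ℂ‖ := by
    rw [← intervalIntegral.integral_add_adjacent_intervals (hC1.intervalIntegrable (-M) 0)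
      (hC1.intervalIntegrable 0 M)]
    have h2 : ∫ u in (-M)..0, ‖⟪a 0, a u⟫_ℂ‖ = ∫ u in (0 : ℝ)..M, ‖⟪a 0, a u⟫_ℂ‖ := by
      have h3 := intervalIntegral.integral_comp_neg (a := 0) (b := M)
        (fun u => ‖⟪a 0, a u⟫_ℂ‖)
      rw [neg_zero] at h3
      rw [← h3]
      refine intervalIntegral.integral_congr fun u _ => ?_
      exact c_even h u
    rw [h2]
    ring
  have hin : ∀ t ∈ Set.Ioc (0 : ℝ) M, ‖∫ s in (0 : ℝ)..M,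
      conj ⟪a s, φ⟫_ℂ * ⟪a t, φ⟫_ℂ * ⟪a s, a t⟫_ℂ‖ ≤ B ^ 2 * (2 * (κ * M)) := by
    intro t ht
    have h2 : ‖∫ s in (0 : ℝ)..M, conj ⟪a s, φ⟫_ℂ * ⟪a t, φ⟫_ℂ * ⟪a s, a t⟫_ℂ‖ ≤
        ∫ s in (0 : ℝ)..M, B ^ 2 * ‖⟪a 0, a (t - s)⟫_ℂ‖ := by
      refine intervalIntegral.norm_integral_le_of_norm_le hM0.le ?_ ?_
      · refine Eventually.of_forall fun s _ => ?_
        rw [norm_mul, norm_mul, RCLike.norm_conj, h.inn s t, sq]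
        gcongr
        · exact hcB s
        · exact hcB t
      · exact (continuous_const.mul (hC1.comp (by fun_prop :
          Continuous fun s : ℝ => t - s))).intervalIntegrable _ _
    refine h2.trans ?_
    rw [intervalIntegral.integral_const_mul]
    have h3 : ∫ s in (0 : ℝ)..M, ‖⟪a 0, a (t - s)⟫_ℂ‖ = ∫ u in (t - M)..t, ‖⟪a 0, a u⟫_ℂ‖ := by
      have := intervalIntegral.integral_comp_sub_left (a := 0) (b := M)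
        (fun u => ‖⟪a 0, a u⟫_ℂ‖) t
      rw [this, sub_zero]
    rw [h3]
    have h4 : ∫ u in (t - M)..t, ‖⟪a 0, a u⟫_ℂ‖ ≤ ∫ u in (-M)..M, ‖⟪a 0, a u⟫_ℂ‖ := by
      refine intervalIntegral.integral_mono_interval (by linarith [ht.1]) (by linarith) ht.2
        (Eventually.of_forall fun u => norm_nonneg _) (hC1.intervalIntegrable _ _)
    rw [hev] at h4
    gcongr
    exact h4.trans (by gcongr)
  have hyn : ‖y‖ ^ 2 ≤ (B ^ 2 * (2 * (κ * M))) * M := by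
    have h2 := norm_int a h.ct _ hcc M
    have h3 : ‖((‖y‖ ^ 2 : ℝ) : ℂ)‖ ≤ (B ^ 2 * (2 * (κ * M))) * |M - 0| := by
      rw [hy, h2]
      refine intervalIntegral.norm_integral_le_of_norm_le_const fun t ht => ?_
      rw [Set.uIoc_of_le hM0.le] at ht
      exact hin t ht
    rw [Complex.norm_real, Real.norm_of_nonneg (by positivity), sub_zero, abs_of_pos hM0] at h3
    exact h3
  -- the pairing
  have hpair : ((∫ u in (0 : ℝ)..M, ‖⟪φ, a u⟫_ℂ‖ ^ 2 : ℝ) : ℂ) = ⟪φ, y⟫_ℂ := by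
    have h2 : ⟪φ, y⟫_ℂ = ∫ s in (0 : ℝ)..M, ⟪φ, ⟪a s, φ⟫_ℂ • a s⟫_ℂ :=
      ((innerSL ℂ φ).intervalIntegral_comp_comm ((hcc.smul h.ct).intervalIntegrable _ _)).symm
    rw [h2, ← intervalIntegral.integral_ofReal]
    refine intervalIntegral.integral_congr fun s _ => ?_
    rw [inner_smul_right, ← inner_conj_symm (a s) φ]
    rw [mul_comm, Complex.mul_conj, Complex.normSq_eq_norm_sq]
  have h5 : ∫ u in (0 : ℝ)..M, ‖⟪φ, a u⟫_ℂ‖ ^ 2 ≤ ‖φ‖ * ‖y‖ := by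
    have h6 : |∫ u in (0 : ℝ)..M, ‖⟪φ, a u⟫_ℂ‖ ^ 2| = ‖⟪φ, y⟫_ℂ‖ := by
      rw [← hpair, Complex.norm_real, Real.norm_eq_abs]
    refine (le_abs_self _).trans ?_
    rw [h6]
    exact norm_inner_le_norm _ _
  have h7 : ‖φ‖ * ‖y‖ ≤ ε * M := by
    refine (sq_le_sq₀ (by positivity) (by positivity)).1 ?_
    rw [mul_pow, mul_pow]
    calc ‖φ‖ ^ 2 * ‖y‖ ^ 2 ≤ ‖φ‖ ^ 2 * ((B ^ 2 * (2 * (κ * M))) * M) := by gcongr
      _ = (‖φ‖ ^ 2 * B ^ 2) * (2 * κ) * M ^ 2 := by ring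
      _ ≤ (‖φ‖ ^ 2 * B ^ 2 + 1) * (2 * κ) * M ^ 2 := by gcongr; linarith
      _ = ε ^ 2 * M ^ 2 := by
        rw [hκ]
        field_simp
  exact h5.trans h7

end Pool.Agent.Helper26.Wn
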