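import Pool.Agent.Helper26.Wn.Cov
import Pool.Agent.Helper26.Rg.Lw

/-! # Shifting the energy -/

set_option autoImplicit false
set_option linter.unusedSectionVars false

open MeasureTheory Filter Topology
open scoped ENNReal NNReal ComplexConjugate InnerProductSpace

namespace Pool.Agent.Helper26.Wn

open Pool.Agent.H5R2.NB Pool.Agent.Helper26.Nb Pool.Agent.Helper26.Cm Pool.Agent.Helper26.Dj
  Pool.Agent.Helper26.Rg

variable {d : ℕ} {c c' : ℝ} {ev ev' : (Site d → ℝ) → UG (L2 (Site d))}

/-- adding a constant to the potential multiplies the group by a phase -/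
theorem ev_shift (hev : ∀ V, IsGrp c V (ev V)) (V V₁ : Site d → ℝ) (x : ℝ)
    (h : ∀ y, V₁ y = V y + x) (t : ℝ) (u : L2 (Site d)) :
    (ev V₁).U t u = Complex.exp (-(Complex.I * x * t)) • (ev V).U t u := by
  set f : ℝ → L2 (Site d) := fun t => Complex.exp (-(Complex.I * x * t)) • (ev V).U t u with hf
  have hn : ∀ t : ℝ, ‖Complex.exp (-(Complex.I * x * t))‖ = 1 := by
    intro t
    rw [show -(Complex.I * x * t) = ((-(x * t) : ℝ) : ℂ) * Complex.I by push_cast; ring]
    exact Complex.norm_exp_ofReal_mul_I _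
  have hsol : IsSol c V₁ f (fun _ => 0) := by
    refine ⟨fun T => ⟨‖u‖, fun t _ => ?_⟩, fun t y => ?_⟩
    · rw [hf]
      simp only
      rw [norm_smul, hn, one_mul, (ev V).norm']
    · have h1 := (hev V u).2 t y
      have h2 : HasDerivAt (fun s : ℝ => Complex.exp (-(Complex.I * x * s)))
          (Complex.exp (-(Complex.I * x * t)) * (-(Complex.I * x))) t := by
        have h3 : HasDerivAt (fun s : ℝ => -(Complex.I * x * s)) (-(Complex.I * x)) t := by
          have h0 : HasDerivAt (fun s : ℝ => (s : ℂ)) 1 t := by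
            simpa using HasDerivAt.ofReal_comp (hasDerivAt_id t)
          have h4 := (h0.const_mul (Complex.I * x)).neg
          exact h4.congr_deriv (by ring)
        exact h3.cexp
      have h5 := h2.mul h1
      have e1 : (fun s => (f s) y) = fun s : ℝ => Complex.exp (-(Complex.I * x * s)) *
          ((ev V).U s u) y := by
        funext s
        rw [hf]
        simp only
        rw [lp.coeFn_smul, Pi.smul_apply, smul_eq_mul]
      rw [e1]
      refine h5.congr_deriv ?_
      have e2 : hopf c (fun y => (f t) y) y = Complex.exp (-(Complex.I * x * t)) *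
          hopf c (fun y => ((ev V).U t u) y) y := by
        unfold hopf
        rw [hf]
        simp only [lp.coeFn_smul, Pi.smul_apply, smul_eq_mul]
        have : ∀ i : Fin d, Complex.exp (-(Complex.I * x * t)) * ((ev V).U t u) (y + Pi.single i 1) +
            Complex.exp (-(Complex.I * x * t)) * ((ev V).U t u) (y - Pi.single i 1) =
            Complex.exp (-(Complex.I * x * t)) * (((ev V).U t u) (y + Pi.single i 1) +
              ((ev V).U t u) (y - Pi.single i 1)) := fun i => by ring
        simp only [this]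
        rw [← Finset.mul_sum]
        ring
      have e3 : (f t) y = Complex.exp (-(Complex.I * x * t)) * ((ev V).U t u) y := by
        rw [hf]
        simp only
        rw [lp.coeFn_smul, Pi.smul_apply, smul_eq_mul]
      rw [e2, e3, h]
      simp only [lp.coeFn_zero, Pi.zero_apply]
      push_cast
      ring
  have h1 := ALL.a_UN d c V₁ (ev V₁) (hev V₁) f (fun _ => 0) continuous_const hsol t
  have h0 : f 0 = u := by
    rw [hf]
    simp only
    rw [(ev V).zero']
    simp
  rw [h0] at h1
  simp only [map_zero, intervalIntegral.integral_zero, add_zero] at h1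
  exact h1.symm

/-- frequency averages -/
theorem freq (hev' : ∀ V, IsGrp c' V (ev' V)) (l' o' x : ℝ) (W : (Site d → ℝ) → UG (L2 (Site d)))
    (X : (Site d → ℝ) → L2 (Site d) →L[ℂ] L2 (Site d)) (N : ℕ) (V : Site d → ℝ) :
    gP (ev' (pot (af l' (o' + x)) V)) (W V) (X V) N (dl 0) =
      ((N : ℂ)⁻¹) • ∫ s in (0 : ℝ)..N, Complex.exp (Complex.I * x * s) •
        tb (fun V => ev' (pot (af l' o') V)) W X s V := by
  unfold gP
  congr 1
  refine intervalIntegral.integral_congr fun s _ => ?_
  rw [ev_shift hev' (pot (af l' o') V) (pot (af l' (o' + x)) V) x (fun y => by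
    unfold pot af; ring)]
  unfold tb
  congr 2
  push_cast
  ring

/-- all frequency averages vanish -/
theorem hav_of (hd : 0 < d) (hev : ∀ V, IsGrp c V (ev V)) (hev' : ∀ V, IsGrp c' V (ev' V))
    {l l' o o' : ℝ} (hl : l ≠ 0) (μ : Measure ℝ)
    [IsProbabilityMeasure μ] (hμ : μ ≪ volume) {R : ℝ} (hR : ∀ᵐ κ ∂μ, |κ| ≤ R)
    {X : (Site d → ℝ) → L2 (Site d) →L[ℂ] L2 (Site d)} (hX : Cv X) (x : ℝ)
    (hab : l' ≠ l ∨ o' + x ≠ o ∨ |c'| ≠ |c|) :
    Tendsto (fun N : ℕ => ∫⁻ V, ‖((N : ℂ)⁻¹) • ∫ s in (0 : ℝ)..N,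
      Complex.exp (Complex.I * x * s) •
        tb (fun V => ev' (pot (af l' o') V)) (fun V => ev (pot (af l o) V)) X s V‖ₑ ^ 2
      ∂(Measure.infinitePi fun _ : Site d => μ)) atTop (𝓝 0) := by
  have h := zAff hd hev hev' hl hab μ hμ hR hX
  have h2 := ((ENNReal.continuous_pow 2).tendsto 0).comp h
  simp only [Function.comp_def, n2_sq] at h2
  have h3 : Tendsto (fun N : ℕ => ∫⁻ V, ‖gP (ev' (pot (af l' (o' + x)) V))
      (ev (pot (af l o) V)) (X V) N (dl 0)‖ₑ ^ 2
      ∂(Measure.infinitePi fun _ : Site d => μ)) atTop (𝓝 0) := by simpa using h2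
  refine h3.congr fun N => lintegral_congr fun V => ?_
  rw [freq hev' l' o' x (fun V => ev (pot (af l o) V))]

end Pool.Agent.Helper26.Wn
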