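import Pool.Agent.Helper26.Wn.Rnm
import Pool.Agent.Helper26.Wn.Shf

/-! # Masses of level sets from time averages -/

set_option autoImplicit false
set_option linter.unusedSectionVars false

open MeasureTheory Filter Topology
open scoped ENNReal NNReal ComplexConjugate InnerProductSpace

namespace Pool.Agent.Helper26.Wn

open Pool.Agent.H5R2.NB Pool.Agent.Helper26.Nb Pool.Agent.Helper26.Cm Pool.Agent.Helper26.Dj
  Pool.Agent.Helper26.Rg

/-- time average of `e^{isy}` -/
noncomputable def kT (N : ℕ) (y : ℝ) : ℂ :=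
  ((N : ℂ)⁻¹) * ∫ s in (0 : ℝ)..N, Complex.exp (Complex.I * s * y)

lemma norm_ex' (s y : ℝ) : ‖Complex.exp (Complex.I * s * y)‖ = 1 := norm_ex s y

lemma kT_le (N : ℕ) (y : ℝ) : ‖kT N y‖ ≤ 1 := by
  unfold kT
  rw [norm_mul, norm_inv, Complex.norm_natCast]
  have h1 := intervalIntegral.norm_integral_le_of_norm_le_const (a := 0) (b := (N : ℝ)) (C := 1)
    (f := fun s : ℝ => Complex.exp (Complex.I * s * y)) (fun s _ => (norm_ex' s y).le)
  rw [sub_zero, one_mul, Nat.abs_cast] at h1
  by_cases hN : N = 0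
  · subst hN; simp
  · have : (0 : ℝ) < N := by exact_mod_cast Nat.pos_of_ne_zero hN
    calc (N : ℝ)⁻¹ * ‖∫ s in (0 : ℝ)..N, Complex.exp (Complex.I * s * y)‖ ≤ (N : ℝ)⁻¹ * N := by
          gcongr
      _ = 1 := by field_simp

lemma kT_lim (y : ℝ) : Tendsto (fun N => kT N y) atTop (𝓝 (if y = 0 then 1 else 0)) := by
  by_cases hy : y = 0
  · subst hy
    rw [if_pos rfl]
    refine (tendsto_const_nhds (x := (1 : ℂ))).congr' ?_
    filter_upwards [eventually_gt_atTop 0] with N hN
    have hN0 : (N : ℂ) ≠ 0 := by exact_mod_cast hN.ne'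
    unfold kT
    simp [hN0]
  · rw [if_neg hy]
    have h2 : Tendsto (fun N : ℕ => (N : ℝ)⁻¹ * (2 / |y|)) atTop (𝓝 0) := by
      have := (tendsto_inv_atTop_nhds_zero_nat (𝕜 := ℝ)).mul_const (2 / |y|)
      rwa [zero_mul] at this
    refine squeeze_zero_norm (fun N => ?_) h2
    unfold kT
    rw [norm_mul, norm_inv, Complex.norm_natCast]
    gcongr
    have e : ∫ s in (0 : ℝ)..N, Complex.exp (Complex.I * s * y) =
        ∫ s in (0 : ℝ)..N, Complex.exp (Complex.I * y * s) := by
      refine intervalIntegral.integral_congr fun s _ => ?_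
      congr 1
      ring
    rw [e]
    exact ex_int hy _

theorem atom_lim {Z : Type} [MeasurableSpace Z] (M : Measure Z) [IsFiniteMeasure M] (g : Z → ℝ)
    (hg : Measurable g) :
    Tendsto (fun N : ℕ => ((N : ℂ)⁻¹) * ∫ s in (0 : ℝ)..N,
      (∫ p, Complex.exp (Complex.I * s * g p) ∂M)) atTop (𝓝 ((M.real {p | g p = 0} : ℝ) : ℂ)) := by
  have hms : MeasurableSet {p | g p = 0} := hg (measurableSet_singleton 0)
  have e1 : ∀ N : ℕ, ((N : ℂ)⁻¹) * ∫ s in (0 : ℝ)..N,
      (∫ p, Complex.exp (Complex.I * s * g p) ∂M) = ∫ p, kT N (g p) ∂M := by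
    intro N
    unfold kT
    rw [integral_const_mul]
    congr 1
    rw [intervalIntegral.integral_of_le (Nat.cast_nonneg N)]
    have e2 : ∀ p, ∫ s in (0 : ℝ)..N, Complex.exp (Complex.I * s * g p) =
        ∫ s in Set.Ioc (0 : ℝ) N, Complex.exp (Complex.I * s * g p) := fun p =>
      intervalIntegral.integral_of_le (Nat.cast_nonneg N)
    simp only [e2]
    refine integral_integral_swap ?_
    have hmeas : Measurable (Function.uncurry fun (s : ℝ) (p : Z) =>
        Complex.exp (Complex.I * s * g p)) := by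
      have h1 : Measurable fun q : ℝ × Z => ((q.1 : ℝ) : ℂ) :=
        Complex.measurable_ofReal.comp measurable_fst
      have h2 : Measurable fun q : ℝ × Z => ((g q.2 : ℝ) : ℂ) :=
        Complex.measurable_ofReal.comp (hg.comp measurable_snd)
      exact Complex.measurable_exp.comp ((h1.const_mul Complex.I).mul h2)
    refine Integrable.of_bound hmeas.aestronglyMeasurable 1 (Eventually.of_forall fun q => ?_)
    exact (norm_ex' q.1 (g q.2)).le
  simp only [e1]
  have e3 : ((M.real {p | g p = 0} : ℝ) : ℂ) = ∫ p, (if g p = 0 then (1 : ℂ) else 0) ∂M := by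
    have e4 : (fun p => (if g p = 0 then (1 : ℂ) else 0)) =
        {p | g p = 0}.indicator fun _ => (1 : ℂ) := by
      funext p
      by_cases h : g p = 0
      · rw [if_pos h, Set.indicator_of_mem (show p ∈ {p | g p = 0} from h)]
      · rw [if_neg h, Set.indicator_of_notMem (show p ∉ {p | g p = 0} from h)]
    rw [e4, integral_indicator hms, setIntegral_const]
    simp
  rw [e3]
  refine tendsto_integral_of_dominated_convergence (fun _ => (1 : ℝ)) (fun N => ?_)
    (integrable_const _) (fun N => Eventually.of_forall fun p => kT_le N (g p))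
    (Eventually.of_forall fun p => kT_lim (g p))
  have hk : Measurable (kT N) := by
    unfold kT
    refine Measurable.const_mul ?_ _
    have hc : Continuous fun y : ℝ => ∫ s in (0 : ℝ)..N, Complex.exp (Complex.I * s * y) := by
      refine intervalIntegral.continuous_parametric_intervalIntegral_of_continuous'
        (f := fun (y : ℝ) (s : ℝ) => Complex.exp (Complex.I * s * y)) ?_ _ _
      fun_prop
    exact hc.measurable
  exact (hk.comp hg).aestronglyMeasurable

theorem atom_zero {Z : Type} [MeasurableSpace Z] (M : Measure Z) [IsFiniteMeasure M] (g : Z → ℝ)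
    (hg : Measurable g) (h : Tendsto (fun N : ℕ => ((N : ℂ)⁻¹) * ∫ s in (0 : ℝ)..N,
      (∫ p, Complex.exp (Complex.I * s * g p) ∂M)) atTop (𝓝 0)) : M {p | g p = 0} = 0 := by
  have h1 := tendsto_nhds_unique (atom_lim M g hg) h
  have h2 : M.real {p | g p = 0} = 0 := by exact_mod_cast h1
  exact (measureReal_eq_zero_iff).1 h2

variable {d : ℕ} {α : Type} [MeasurableSpace α]
  {W' W : (Site d → α) → UG (L2 (Site d))}
  {X : (Site d → α) → L2 (Site d) →L[ℂ] L2 (Site d)} {ρ : Measure α} [IsProbabilityMeasure ρ]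

/-- averages of correlations -/
theorem cr_avg (hW' : CE W') (hW : CE W) (hX : Cv X)
    (h : Tendsto (fun N : ℕ => ∫⁻ V, ‖gP (W' V) (W V) (X V) N (dl 0)‖ₑ ^ 2
      ∂(Measure.infinitePi fun _ : Site d => ρ)) atTop (𝓝 0))
    {φ : (Site d → α) → L2 (Site d)}
    (hφ : MemLp φ 2 (Measure.infinitePi fun _ : Site d => ρ)) :
    Tendsto (fun N : ℕ => ((N : ℂ)⁻¹) * ∫ s in (0 : ℝ)..N, cr ρ W' W X φ (fun _ => dl 0) s) atTop
      (𝓝 0) := by
  set P := Measure.infinitePi fun _ : Site d => ρ with hP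
  have hc0 : StronglyMeasurable fun _ : Site d → α => (dl 0 : L2 (Site d)) :=
    stronglyMeasurable_const
  obtain ⟨R, hR⟩ := hX.bdd
  have hc : ∀ V, Continuous fun s => tb W' W X s V := fun V =>
    cont_gP (W' V) (W V) (X V) (dl 0)
  have hm : ∀ s, StronglyMeasurable (tb W' W X s) := fun s =>
    (hW'.cv (-s)).sm_apply (hX.sm_apply ((hW.cv s).sm_apply hc0))
  have hK : ∀ s V, ‖tb W' W X s V‖ ≤ R := by
    intro s V
    unfold tb
    rw [(W' V).norm']
    refine ((X V).le_opNorm _).trans ?_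
    rw [(W V).norm', STAT.norm_dl, mul_one]
    exact hR V
  have h0 := cu_avg (P := P) (T := tb W' W X) hc hm hK 0 (by
    refine h.congr fun N => lintegral_congr fun V => ?_
    unfold gP
    congr 3
    refine intervalIntegral.integral_congr fun s _ => ?_
    simp [tb])
  have hlim : Tendsto (fun N : ℕ => ‖hφ.toLp‖ * (‖fa (cu (P := P) hm hK) N 0‖ / N)) atTop
      (𝓝 0) := by
    have := h0.const_mul ‖hφ.toLp‖
    rwa [mul_zero] at this
  refine squeeze_zero_norm (fun N => ?_) hlim
  have e : ∫ s in (0 : ℝ)..N, cr ρ W' W X φ (fun _ => dl 0) s =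
      ⟪hφ.toLp, fa (cu (P := P) hm hK) N 0⟫_ℂ := by
    have hct := cu_cont (P := P) hc hm hK
    have h2 := ((innerSL ℂ hφ.toLp).intervalIntegral_comp_comm
      ((ci hct 0).intervalIntegrable (μ := volume) 0 N))
    have h3 : ⟪hφ.toLp, fa (cu (P := P) hm hK) N 0⟫_ℂ = ∫ s in (0 : ℝ)..N,
        (innerSL ℂ hφ.toLp) (Complex.exp (Complex.I * (0 : ℝ) * s) • cu (P := P) hm hK s) :=
      h2.symm
    rw [h3]
    refine intervalIntegral.integral_congr fun s _ => ?_
    show cr ρ W' W X φ (fun _ => dl 0) s = ⟪hφ.toLp, Complex.exp (Complex.I * (0 : ℝ) * s) •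
      cu (P := P) hm hK s⟫_ℂ
    rw [inner_smul_right, inner_cu]
    have e5 : Complex.exp (Complex.I * (0 : ℝ) * s) = 1 := by simp
    rw [e5, one_mul]
    refine integral_congr_ae ?_
    filter_upwards [hφ.coeFn_toLp] with V hV
    rw [hV]
    rfl
  rw [e, norm_mul, norm_inv, Complex.norm_natCast]
  calc (N : ℝ)⁻¹ * ‖⟪hφ.toLp, fa (cu (P := P) hm hK) N 0⟫_ℂ‖ ≤
      (N : ℝ)⁻¹ * (‖hφ.toLp‖ * ‖fa (cu (P := P) hm hK) N 0‖) := by
        gcongr
        exact norm_inner_le_norm _ _
    _ = _ := by ring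

end Pool.Agent.Helper26.Wn
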