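import Pool.Agent.Helper26.Wn.Ran
import Pool.Agent.Helper26.Dj.Mod

/-! # Correlations of covariant families -/

set_option autoImplicit false
set_option linter.unusedSectionVars false

open MeasureTheory Filter Topology
open scoped ENNReal NNReal ComplexConjugate InnerProductSpace

namespace Pool.Agent.Helper26.Wn

open Pool.Agent.H5R2.NB Pool.Agent.Helper26.Nb Pool.Agent.Helper26.Cm Pool.Agent.Helper26.Dj

/-- continuous functions tending to zero in the mean square sense -/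
structure Zc (c : ℝ → ℂ) : Prop where
  ct : Continuous c
  lim : Tendsto (fun M : ℝ => M⁻¹ * ∫ s in (0 : ℝ)..M, ‖c s‖ ^ 2) atTop (𝓝 0)

namespace Zc

variable {c c' : ℝ → ℂ}

lemma bd (hc : Continuous c) (hc' : Continuous c') {ε : ℝ} (h : ∀ s, ‖c s - c' s‖ ^ 2 ≤ ε)
    {M : ℝ} (hM : 0 < M) : M⁻¹ * ∫ s in (0 : ℝ)..M, ‖c s‖ ^ 2 ≤
      2 * (M⁻¹ * ∫ s in (0 : ℝ)..M, ‖c' s‖ ^ 2) + 2 * ε := by
  have h1 : ∫ s in (0 : ℝ)..M, ‖c s‖ ^ 2 ≤ ∫ s in (0 : ℝ)..M, (2 * ‖c' s‖ ^ 2 + 2 * ε) := by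
    refine intervalIntegral.integral_mono_on hM.le ((hc.norm.pow 2).intervalIntegrable _ _)
      ((((hc'.norm.pow 2).const_mul 2).add continuous_const).intervalIntegrable _ _)
      fun s _ => ?_
    have h2 : ‖c s‖ ≤ ‖c' s‖ + ‖c s - c' s‖ := by
      have e : c s = c' s + (c s - c' s) := by ring
      calc ‖c s‖ = ‖c' s + (c s - c' s)‖ := by rw [← e]
        _ ≤ _ := norm_add_le _ _
    have h3 := h s
    have h4 : ‖c s‖ ^ 2 ≤ (‖c' s‖ + ‖c s - c' s‖) ^ 2 := pow_le_pow_left₀ (norm_nonneg _) h2 2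
    nlinarith [sq_nonneg (‖c' s‖ - ‖c s - c' s‖)]
  have i1 : IntervalIntegrable (fun s => 2 * ‖c' s‖ ^ 2) volume 0 M :=
    (by fun_prop : Continuous fun s => 2 * ‖c' s‖ ^ 2).intervalIntegrable _ _
  rw [intervalIntegral.integral_add i1
    (continuous_const.intervalIntegrable _ _), intervalIntegral.integral_const_mul,
    intervalIntegral.integral_const, sub_zero, smul_eq_mul] at h1
  calc _ ≤ M⁻¹ * (2 * (∫ s in (0 : ℝ)..M, ‖c' s‖ ^ 2) + M * (2 * ε)) := by gcongr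
    _ = _ := by field_simp

lemma nn (c : ℝ → ℂ) {M : ℝ} (hM : 0 < M) : 0 ≤ M⁻¹ * ∫ s in (0 : ℝ)..M, ‖c s‖ ^ 2 :=
  mul_nonneg (inv_nonneg.2 hM.le) (intervalIntegral.integral_nonneg hM.le fun s _ => by positivity)

lemma lim' (hc : Continuous c) (h : ∀ ε : ℝ, 0 < ε → ∃ c' : ℝ → ℂ, Zc c' ∧
    ∀ s, ‖c s - c' s‖ ^ 2 ≤ ε) : Zc c := by
  refine ⟨hc, ?_⟩
  rw [Metric.tendsto_atTop]
  intro ε hε
  obtain ⟨c', hc', hd⟩ := h (ε / 8) (by positivity)
  obtain ⟨M₀, hM⟩ := (Metric.tendsto_atTop.1 hc'.lim) (ε / 8) (by positivity)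
  refine ⟨max M₀ 1, fun M hMM => ?_⟩
  have hM0 : 0 < M := lt_of_lt_of_le one_pos ((le_max_right _ _).trans hMM)
  have h1 := hM M ((le_max_left _ _).trans hMM)
  rw [Real.dist_eq, sub_zero, abs_of_nonneg (nn _ hM0)] at h1 ⊢
  have h2 := bd hc hc'.ct hd hM0
  linarith

lemma add (h : Zc c) (h' : Zc c') : Zc fun s => c s + c' s := by
  refine ⟨h.ct.add h'.ct, ?_⟩
  have h1 := (h.lim.const_mul 2).add (h'.lim.const_mul 2)
  rw [mul_zero, add_zero] at h1
  refine tendsto_of_tendsto_of_tendsto_of_le_of_le' tendsto_const_nhds h1 ?_ ?_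
  · filter_upwards [eventually_gt_atTop 0] with M hM using nn _ hM
  · filter_upwards [eventually_gt_atTop 0] with M hM
    have h2 : ∫ s in (0 : ℝ)..M, ‖c s + c' s‖ ^ 2 ≤
        ∫ s in (0 : ℝ)..M, (2 * ‖c s‖ ^ 2 + 2 * ‖c' s‖ ^ 2) := by
      refine intervalIntegral.integral_mono_on hM.le
        (((h.ct.add h'.ct).norm.pow 2).intervalIntegrable _ _)
        ((((h.ct.norm.pow 2).const_mul 2).add ((h'.ct.norm.pow 2).const_mul 2)).intervalIntegrable
          _ _) fun s _ => ?_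
      have h3 := norm_add_le (c s) (c' s)
      have h4 : ‖c s + c' s‖ ^ 2 ≤ (‖c s‖ + ‖c' s‖) ^ 2 :=
        pow_le_pow_left₀ (norm_nonneg _) h3 2
      nlinarith [sq_nonneg (‖c s‖ - ‖c' s‖)]
    have hc := h.ct
    have hc' := h'.ct
    have i1 : IntervalIntegrable (fun s => 2 * ‖c s‖ ^ 2) volume 0 M :=
      (by fun_prop : Continuous fun s => 2 * ‖c s‖ ^ 2).intervalIntegrable _ _
    have i2 : IntervalIntegrable (fun s => 2 * ‖c' s‖ ^ 2) volume 0 M :=
      (by fun_prop : Continuous fun s => 2 * ‖c' s‖ ^ 2).intervalIntegrable _ _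
    rw [intervalIntegral.integral_add i1 i2,
      intervalIntegral.integral_const_mul, intervalIntegral.integral_const_mul] at h2
    calc _ ≤ M⁻¹ * (2 * (∫ s in (0 : ℝ)..M, ‖c s‖ ^ 2) + 2 * ∫ s in (0 : ℝ)..M, ‖c' s‖ ^ 2) := by
          gcongr
      _ = _ := by ring

lemma smul (h : Zc c) (k : ℂ) : Zc fun s => k * c s := by
  refine ⟨continuous_const.mul h.ct, ?_⟩
  have h1 := h.lim.const_mul (‖k‖ ^ 2)
  rw [mul_zero] at h1
  refine h1.congr fun M => ?_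
  simp only [norm_mul, mul_pow]
  rw [intervalIntegral.integral_const_mul]
  ring

lemma zero : Zc fun _ => 0 := ⟨continuous_const, by simp⟩

lemma sum {ι : Type} (s : Finset ι) {f : ι → ℝ → ℂ} (h : ∀ i ∈ s, Zc (f i)) :
    Zc fun t => ∑ i ∈ s, f i t := by
  classical
  induction s using Finset.induction_on with
  | empty => simpa using zero
  | insert i s hi ih =>
    simp only [Finset.sum_insert hi]
    exact (h i (Finset.mem_insert_self i s)).add (ih fun j hj => h j (Finset.mem_insert_of_mem hj))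

end Zc

variable {d : ℕ} {α : Type} [MeasurableSpace α]
  {W' W : (Site d → α) → UG (L2 (Site d))}
  {X : (Site d → α) → L2 (Site d) →L[ℂ] L2 (Site d)} {ρ : Measure α}

/-- correlation function -/
noncomputable def cr (ρ : Measure α) (W' W : (Site d → α) → UG (L2 (Site d)))
    (X : (Site d → α) → L2 (Site d) →L[ℂ] L2 (Site d)) (φ ψ : (Site d → α) → L2 (Site d))
    (s : ℝ) : ℂ :=
  ∫ V, ⟪φ V, (W' V).U (-s) (X V ((W V).U s (ψ V)))⟫_ℂ ∂(Measure.infinitePi fun _ : Site d => ρ)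

lemma cr_meas (hW' : CE W') (hW : CE W) (hX : Cv X) {P : Measure (Site d → α)}
    {φ ψ : (Site d → α) → L2 (Site d)}
    (hφ : AEStronglyMeasurable φ P) (hψ : StronglyMeasurable ψ) (s : ℝ) :
    AEStronglyMeasurable (fun V => ⟪φ V, (W' V).U (-s) (X V ((W V).U s (ψ V)))⟫_ℂ) P :=
  hφ.inner ((hW'.cv (-s)).sm_apply (hX.sm_apply ((hW.cv s).sm_apply hψ))).aestronglyMeasurable

lemma cr_ptw {R : ℝ} (hR : ∀ V, ‖X V‖ ≤ R) (φ ψ : (Site d → α) → L2 (Site d)) (s : ℝ)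
    (V : Site d → α) :
    ‖⟪φ V, (W' V).U (-s) (X V ((W V).U s (ψ V)))⟫_ℂ‖ ≤ R * (‖φ V‖ * ‖ψ V‖) := by
  refine (norm_inner_le_norm _ _).trans ?_
  rw [(W' V).norm']
  have h1 : ‖X V ((W V).U s (ψ V))‖ ≤ R * ‖ψ V‖ := by
    refine ((X V).le_opNorm _).trans ?_
    rw [(W V).norm']
    gcongr
    exact hR V
  calc ‖φ V‖ * ‖X V ((W V).U s (ψ V))‖ ≤ ‖φ V‖ * (R * ‖ψ V‖) := by gcongr
    _ = _ := by ring

lemma int_mul {Ω E F : Type} [MeasurableSpace Ω] [NormedAddCommGroup E] [NormedAddCommGroup F]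
    {P : Measure Ω} {f : Ω → E} {g : Ω → F} (hf : MemLp f 2 P) (hg : MemLp g 2 P) :
    Integrable (fun V => ‖f V‖ * ‖g V‖) P := hf.norm.integrable_mul hg.norm

lemma int_mul_le {Ω E F : Type} [MeasurableSpace Ω] [NormedAddCommGroup E] [NormedAddCommGroup F]
    {P : Measure Ω} {f : Ω → E} {g : Ω → F} (hf : MemLp f 2 P) (hg : MemLp g 2 P) :
    ∫ V, ‖f V‖ * ‖g V‖ ∂P ≤ (eLpNorm f 2 P).toReal * (eLpNorm g 2 P).toReal := by
  have h1 : ∫ V, ‖f V‖ * ‖g V‖ ∂P = ⟪hf.norm.toLp, hg.norm.toLp⟫_ℝ := by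
    rw [L2.inner_def]
    refine integral_congr_ae ?_
    filter_upwards [hf.norm.coeFn_toLp, hg.norm.coeFn_toLp] with V h2 h3
    rw [h2, h3]
    simp [mul_comm]
  rw [h1]
  refine (real_inner_le_norm _ _).trans ?_
  rw [Lp.norm_toLp, Lp.norm_toLp, eLpNorm_norm, eLpNorm_norm]

variable [IsProbabilityMeasure ρ]

lemma cr_le {R : ℝ} (hR : ∀ V, ‖X V‖ ≤ R)
    {φ ψ : (Site d → α) → L2 (Site d)}
    (hφ : MemLp φ 2 (Measure.infinitePi fun _ : Site d => ρ))
    (hψ : MemLp ψ 2 (Measure.infinitePi fun _ : Site d => ρ)) (s : ℝ) :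
    ‖cr ρ W' W X φ ψ s‖ ≤ R * ((eLpNorm φ 2 (Measure.infinitePi fun _ : Site d => ρ)).toReal *
      (eLpNorm ψ 2 (Measure.infinitePi fun _ : Site d => ρ)).toReal) := by
  have hne : Nonempty α := by
    by_contra h
    rw [not_nonempty_iff] at h
    have h1 : ρ Set.univ = 1 := measure_univ
    rw [Set.eq_empty_of_isEmpty (Set.univ : Set α), measure_empty] at h1
    exact zero_ne_one h1
  have hR0 : 0 ≤ R := (norm_nonneg _).trans (hR fun _ => hne.some)
  unfold cr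
  refine (norm_integral_le_of_norm_le ((int_mul hφ hψ).const_mul R)
    (Eventually.of_forall fun V => cr_ptw hR φ ψ s V)).trans ?_
  rw [integral_const_mul]
  gcongr
  exact int_mul_le hφ hψ

lemma cr_int (hW' : CE W') (hW : CE W) (hX : Cv X)
    {φ ψ : (Site d → α) → L2 (Site d)}
    (hφ : MemLp φ 2 (Measure.infinitePi fun _ : Site d => ρ)) (hψm : StronglyMeasurable ψ)
    (hψ : MemLp ψ 2 (Measure.infinitePi fun _ : Site d => ρ)) (s : ℝ) :
    Integrable (fun V => ⟪φ V, (W' V).U (-s) (X V ((W V).U s (ψ V)))⟫_ℂ)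
      (Measure.infinitePi fun _ : Site d => ρ) := by
  obtain ⟨R, hR⟩ := hX.bdd
  exact ((int_mul hφ hψ).const_mul R).mono' (cr_meas hW' hW hX hφ.1 hψm s)
    (Eventually.of_forall fun V => cr_ptw hR φ ψ s V)

lemma cr_cont (hW' : CE W') (hW : CE W) (hX : Cv X)
    {φ ψ : (Site d → α) → L2 (Site d)}
    (hφ : MemLp φ 2 (Measure.infinitePi fun _ : Site d => ρ)) (hψm : StronglyMeasurable ψ)
    (hψ : MemLp ψ 2 (Measure.infinitePi fun _ : Site d => ρ)) :
    Continuous (cr ρ W' W X φ ψ) := by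
  obtain ⟨R, hR⟩ := hX.bdd
  unfold cr
  refine continuous_of_dominated (fun s => cr_meas hW' hW hX hφ.1 hψm s)
    (fun s => Eventually.of_forall fun V => cr_ptw hR φ ψ s V) ((int_mul hφ hψ).const_mul R)
    (Eventually.of_forall fun V => ?_)
  exact continuous_const.inner (cont_gP (W' V) (W V) (X V) (ψ V))

lemma cr_sub (hW' : CE W') (hW : CE W) (hX : Cv X)
    {φ ψ ψ' : (Site d → α) → L2 (Site d)}
    (hφ : MemLp φ 2 (Measure.infinitePi fun _ : Site d => ρ)) (hψm : StronglyMeasurable ψ)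
    (hψ : MemLp ψ 2 (Measure.infinitePi fun _ : Site d => ρ)) (hψm' : StronglyMeasurable ψ')
    (hψ' : MemLp ψ' 2 (Measure.infinitePi fun _ : Site d => ρ)) (s : ℝ) :
    cr ρ W' W X φ ψ s - cr ρ W' W X φ ψ' s = cr ρ W' W X φ (ψ - ψ') s := by
  unfold cr
  rw [← integral_sub (cr_int hW' hW hX hφ hψm hψ s) (cr_int hW' hW hX hφ hψm' hψ' s)]
  refine integral_congr_ae (Eventually.of_forall fun V => ?_)
  simp only
  rw [← inner_sub_right, Pi.sub_apply, map_sub, map_sub, map_sub]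

end Pool.Agent.Helper26.Wn
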