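import Pool.Agent.Helper26.Wn.Cor

/-! # Decay of all correlations -/

set_option autoImplicit false
set_option linter.unusedSectionVars false

open MeasureTheory Filter Topology
open scoped ENNReal NNReal ComplexConjugate InnerProductSpace

namespace Pool.Agent.Helper26.Wn

open Pool.Agent.H5R2.NB Pool.Agent.Helper26.Nb Pool.Agent.Helper26.Cm Pool.Agent.Helper26.Dj

variable {d : ℕ} {α : Type} [MeasurableSpace α]
  {W' W : (Site d → α) → UG (L2 (Site d))}
  {X : (Site d → α) → L2 (Site d) →L[ℂ] L2 (Site d)} {ρ : Measure α} [IsProbabilityMeasure ρ]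

/-- all frequency averages at the origin vanish -/
def Hav (ρ : Measure α) (W' W : (Site d → α) → UG (L2 (Site d)))
    (X : (Site d → α) → L2 (Site d) →L[ℂ] L2 (Site d)) : Prop :=
  ∀ x : ℝ, Tendsto (fun N : ℕ => ∫⁻ V, ‖((N : ℂ)⁻¹) • ∫ s in (0 : ℝ)..N,
    Complex.exp (Complex.I * x * s) • tb W' W X s V‖ₑ ^ 2
      ∂(Measure.infinitePi fun _ : Site d => ρ)) atTop (𝓝 0)

theorem c_zero (hW' : CE W') (hW : CE W) (hX : Cv X) (hav : Hav ρ W' W X)
    {φ : (Site d → α) → L2 (Site d)}
    (hφ : MemLp φ 2 (Measure.infinitePi fun _ : Site d => ρ)) :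
    Zc (cr ρ W' W X φ fun _ => dl 0) := by
  have hc0 : StronglyMeasurable fun _ : Site d → α => (dl 0 : L2 (Site d)) :=
    stronglyMeasurable_const
  have hm0 : MemLp (fun _ : Site d → α => (dl 0 : L2 (Site d))) 2
      (Measure.infinitePi fun _ : Site d => ρ) := memLp_const _
  obtain ⟨R, hR⟩ := hX.bdd
  refine ⟨cr_cont hW' hW hX hφ hc0 hm0, ?_⟩
  exact ran (P := Measure.infinitePi fun _ : Site d => ρ) (T := fun s V => tb W' W X s V) (K := R)
    (fun V => cont_gP (W' V) (W V) (X V) (dl 0))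
    (fun s => (hW'.cv (-s)).sm_apply (hX.sm_apply ((hW.cv s).sm_apply hc0)))
    (fun s V => by
      unfold tb
      rw [(W' V).norm']
      refine ((X V).le_opNorm _).trans ?_
      rw [(W V).norm', STAT.norm_dl, mul_one]
      exact hR V) (fun s t r => stat_w hW' hW hX ρ s t r) hav hφ

theorem c_site (hW' : CE W') (hW : CE W) (hX : Cv X) (hav : Hav ρ W' W X)
    {φ : (Site d → α) → L2 (Site d)}
    (hφ : MemLp φ 2 (Measure.infinitePi fun _ : Site d => ρ)) (z : Site d) :
    Zc (cr ρ W' W X φ fun _ => dl z) := by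
  obtain ⟨S, hS⟩ := (t_OPS d).1 (-z)
  set S' := ContinuousLinearMap.adjoint S with hS'
  set φ' : (Site d → α) → L2 (Site d) := fun V => S' (φ (sh (-z) V)) with hφ'
  have hmp := mp_sh (d := d) ρ (-z)
  have hmpz := mp_sh (d := d) ρ z
  have hφm : MemLp φ' 2 (Measure.infinitePi fun _ : Site d => ρ) :=
    S'.comp_memLp' (hφ.comp_measurePreserving hmp)
  have h0 := c_zero hW' hW hX hav hφm
  have e : cr ρ W' W X φ (fun _ => dl z) = cr ρ W' W X φ' fun _ => dl 0 := by
    funext s
    unfold cr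
    have hc0 : StronglyMeasurable fun _ : Site d → α => (dl 0 : L2 (Site d)) :=
      stronglyMeasurable_const
    have hF := cr_meas hW' hW hX hφm.1 hc0 s
    have h1 : ∫ V, ⟪φ' V, (W' V).U (-s) (X V ((W V).U s (dl 0)))⟫_ℂ
        ∂(Measure.infinitePi fun _ : Site d => ρ) =
        ∫ V, ⟪φ' (sh z V), (W' (sh z V)).U (-s) (X (sh z V) ((W (sh z V)).U s (dl 0)))⟫_ℂ
        ∂(Measure.infinitePi fun _ : Site d => ρ) := by
      have h2 := integral_map (μ := Measure.infinitePi fun _ : Site d => ρ)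
        hmpz.measurable.aemeasurable (f := fun V => ⟪φ' V, (W' V).U (-s)
          (X V ((W V).U s (dl 0)))⟫_ℂ) (by rw [hmpz.map_eq]; exact hF)
      rw [hmpz.map_eq] at h2
      exact h2
    rw [h1]
    refine integral_congr_ae (Eventually.of_forall fun V => ?_)
    simp only
    have e1 : sh (-z) (sh z V) = V := by
      rw [sh_sh, neg_add_cancel, sh_zero]
    have e2 : φ' (sh z V) = S' (φ V) := by
      rw [hφ']
      simp only
      rw [e1]
    rw [e2, hS', ContinuousLinearMap.adjoint_inner_left]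
    congr 1
    rw [← LIMB.shift_dl z S hS]
    have h1 := cov_neg (hW.cv s) hS V (dl 0)
    have h2 := cov_neg hX hS V ((W (sh z V)).U s (dl 0))
    have h3 := cov_neg (hW'.cv (-s)) hS V (X (sh z V) ((W (sh z V)).U s (dl 0)))
    rw [h1, h2, h3]
  rw [e]
  exact h0

theorem c_det (hW' : CE W') (hW : CE W) (hX : Cv X) (hav : Hav ρ W' W X)
    {φ : (Site d → α) → L2 (Site d)}
    (hφ : MemLp φ 2 (Measure.infinitePi fun _ : Site d => ρ)) (x : L2 (Site d)) :
    Zc (cr ρ W' W X φ fun _ => x) := by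
  have hc : ∀ y : L2 (Site d), StronglyMeasurable fun _ : Site d → α => y :=
    fun y => stronglyMeasurable_const
  have hm : ∀ y : L2 (Site d), MemLp (fun _ : Site d → α => y) 2
      (Measure.infinitePi fun _ : Site d => ρ) := fun y => memLp_const _
  obtain ⟨R, hR⟩ := hX.bdd
  set A := (eLpNorm φ 2 (Measure.infinitePi fun _ : Site d => ρ)).toReal with hA
  refine Zc.lim' (cr_cont hW' hW hX hφ (hc x) (hm x)) fun ε hε => ?_
  have hlim : Tendsto (fun s : Finset (Site d) => (R * (A * ‖x - CV.PF s x‖)) ^ 2) atTop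
      (𝓝 0) := by
    have h8 := (tendsto_const_nhds (x := x)).sub (CV.PF_tendsto x)
    rw [sub_self] at h8
    have h9 := (((h8.norm).const_mul A).const_mul R).pow 2
    simpa using h9
  obtain ⟨F, hF⟩ := ((tendsto_order.1 hlim).2 _ hε).exists
  refine ⟨fun s => ∑ z ∈ F, x z * cr ρ W' W X φ (fun _ => dl z) s,
    Zc.sum F fun z _ => (c_site hW' hW hX hav hφ z).smul _, fun s => ?_⟩
  have e : ∑ z ∈ F, x z * cr ρ W' W X φ (fun _ => dl z) s =
      cr ρ W' W X φ (fun _ => CV.PF F x) s := by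
    unfold cr
    have e1 : ∀ z, x z * (∫ V, ⟪φ V, (W' V).U (-s) (X V ((W V).U s (dl z)))⟫_ℂ
        ∂(Measure.infinitePi fun _ : Site d => ρ)) =
        ∫ V, x z * ⟪φ V, (W' V).U (-s) (X V ((W V).U s (dl z)))⟫_ℂ
        ∂(Measure.infinitePi fun _ : Site d => ρ) := fun z => (integral_const_mul _ _).symm
    simp only [e1]
    rw [← integral_finsetSum F fun z _ => (cr_int hW' hW hX hφ (hc _) (hm _) s).const_mul _]
    refine integral_congr_ae (Eventually.of_forall fun V => ?_)
    simp only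
    rw [PF_eq, map_sum, map_sum, map_sum, inner_sum]
    refine Finset.sum_congr rfl fun z _ => ?_
    rw [map_smul, map_smul, map_smul, inner_smul_right]
  beta_reduce
  rw [e, cr_sub hW' hW hX hφ (hc _) (hm _) (hc _) (hm _)]
  have h1 := cr_le (ρ := ρ) (W' := W') (W := W) hR hφ ((hm x).sub (hm (CV.PF F x))) s
  have h2 : (eLpNorm ((fun _ : Site d → α => x) - fun _ => CV.PF F x) 2
      (Measure.infinitePi fun _ : Site d => ρ)).toReal = ‖x - CV.PF F x‖ := by
    have e3 : ((fun _ : Site d → α => x) - fun _ => CV.PF F x) = fun _ => x - CV.PF F x := by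
      funext V
      rfl
    rw [e3, eLpNorm_const _ (by norm_num) (NeZero.ne _), measure_univ]
    simp
  rw [h2] at h1
  refine (pow_le_pow_left₀ (norm_nonneg _) h1 2).trans hF.le

/-- **decay of correlations** -/
theorem c_all (hW' : CE W') (hW : CE W) (hX : Cv X) (hav : Hav ρ W' W X)
    {φ ψ : (Site d → α) → L2 (Site d)}
    (hφ : MemLp φ 2 (Measure.infinitePi fun _ : Site d => ρ)) (hψm : StronglyMeasurable ψ)
    (hψ : MemLp ψ 2 (Measure.infinitePi fun _ : Site d => ρ)) :
    Zc (cr ρ W' W X φ ψ) := by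
  classical
  obtain ⟨R, hR⟩ := hX.bdd
  set P := Measure.infinitePi fun _ : Site d => ρ with hP
  set A := (eLpNorm φ 2 P).toReal with hA
  refine Zc.lim' (cr_cont hW' hW hX hφ hψm hψ) fun ε hε => ?_
  obtain ⟨η, hη0, hη⟩ : ∃ η : ℝ, 0 < η ∧ (R * (A * η)) ^ 2 ≤ ε := by
    have h1 : Tendsto (fun η : ℝ => (R * (A * η)) ^ 2) (𝓝[>] 0) (𝓝 0) := by
      have h2 : Tendsto (fun η : ℝ => (R * (A * η)) ^ 2) (𝓝 0) (𝓝 ((R * (A * 0)) ^ 2)) :=
        (by fun_prop : Continuous fun η : ℝ => (R * (A * η)) ^ 2).tendsto 0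
      have h3 := h2.mono_left (nhdsWithin_le_nhds (s := Set.Ioi (0 : ℝ)))
      simpa using h3
    obtain ⟨η, h3, h4⟩ := (((tendsto_order.1 h1).2 _ hε).and
      (self_mem_nhdsWithin (a := (0 : ℝ)) (s := Set.Ioi 0))).exists
    exact ⟨η, h4, h3.le⟩
  obtain ⟨g, hg, hgm⟩ := hψ.exists_simpleFunc_eLpNorm_sub_lt (by norm_num)
    (ε := ENNReal.ofReal η) (by simpa using hη0)
  refine ⟨fun s => ∑ x ∈ g.range, cr ρ W' W X ((g ⁻¹' {x}).indicator φ) (fun _ => x) s,
    Zc.sum _ fun x _ => c_det hW' hW hX hav (hφ.indicator (g.measurableSet_fiber x)) x,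
    fun s => ?_⟩
  have e : ∑ x ∈ g.range, cr ρ W' W X ((g ⁻¹' {x}).indicator φ) (fun _ => x) s =
      cr ρ W' W X φ g s := by
    unfold cr
    rw [← integral_finsetSum g.range fun x _ => cr_int hW' hW hX
      (hφ.indicator (g.measurableSet_fiber x)) stronglyMeasurable_const (memLp_const x) s]
    refine integral_congr_ae (Eventually.of_forall fun V => ?_)
    simp only
    rw [Finset.sum_eq_single (g V)]
    · rw [Set.indicator_of_mem (by simp)]
    · intro x _ hx
      rw [Set.indicator_of_notMem (by simpa using hx.symm), inner_zero_left]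
    · intro h
      exact absurd (g.mem_range_self V) h
  beta_reduce
  rw [e, cr_sub hW' hW hX hφ hψm hψ g.stronglyMeasurable hgm]
  have h1 := cr_le (ρ := ρ) (W' := W') (W := W) hR hφ (hψ.sub hgm) s
  have hR0 : 0 ≤ R := by
    have hne : Nonempty (Site d → α) := by
      by_contra h
      rw [not_nonempty_iff] at h
      have h1 : P Set.univ = 1 := measure_univ
      rw [Set.eq_empty_of_isEmpty (Set.univ : Set (Site d → α)), measure_empty] at h1
      exact zero_ne_one h1
    exact (norm_nonneg _).trans (hR hne.some)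
  have h2 : (eLpNorm (ψ - ⇑g) 2 P).toReal ≤ η := by
    refine ENNReal.toReal_le_of_le_ofReal hη0.le hg.le
  have hA0 : 0 ≤ A := ENNReal.toReal_nonneg
  refine (pow_le_pow_left₀ (norm_nonneg _) (h1.trans ?_) 2).trans hη
  gcongr

end Pool.Agent.Helper26.Wn
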