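import Pool.Agent.Helper26.Wn.Atm

/-! # Lines have mass zero -/

set_option autoImplicit false
set_option linter.unusedSectionVars false

open MeasureTheory Filter Topology
open scoped ENNReal NNReal ComplexConjugate InnerProductSpace

namespace Pool.Agent.Helper26.Wn

open Pool.Agent.H5R2.NB Pool.Agent.Helper26.Nb Pool.Agent.Helper26.Cm Pool.Agent.Helper26.Dj
  Pool.Agent.Helper26.Rg

variable {d : ℕ} {c c₁ : ℝ} {ev ev₁ : (Site d → ℝ) → UG (L2 (Site d))}

/-- affine functions of the Hamiltonian -/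
theorem ev_aff (hev : ∀ V, IsGrp c V (ev V)) (hev₁ : ∀ V, IsGrp c₁ V (ev₁ V)) {a : ℝ}
    (hc : c₁ = a * c) (V V₁ : Site d → ℝ) (x : ℝ)
    (h : ∀ y, V₁ y = a * V y + x) (t : ℝ) (u : L2 (Site d)) :
    (ev₁ V₁).U t u = Complex.exp (-(Complex.I * x * t)) • (ev V).U (a * t) u := by
  set f : ℝ → L2 (Site d) := fun t => Complex.exp (-(Complex.I * x * t)) • (ev V).U (a * t) u with hf
  have hn : ∀ t : ℝ, ‖Complex.exp (-(Complex.I * x * t))‖ = 1 := by
    intro t
    rw [show -(Complex.I * x * t) = ((-(x * t) : ℝ) : ℂ) * Complex.I by push_cast; ring]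
    exact Complex.norm_exp_ofReal_mul_I _
  have hsol : IsSol c₁ V₁ f (fun _ => 0) := by
    refine ⟨fun T => ⟨‖u‖, fun t _ => ?_⟩, fun t y => ?_⟩
    · rw [hf]
      simp only
      rw [norm_smul, hn, one_mul, (ev V).norm']
    · have h1 := (hev V u).2 (a * t) y
      have h1a : HasDerivAt (fun s : ℝ => a * s) a t := by
        simpa using (hasDerivAt_id t).const_mul a
      have h1' := h1.scomp t h1a
      have h2 : HasDerivAt (fun s : ℝ => Complex.exp (-(Complex.I * x * s)))
          (Complex.exp (-(Complex.I * x * t)) * (-(Complex.I * x))) t := by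
        have h3 : HasDerivAt (fun s : ℝ => -(Complex.I * x * s)) (-(Complex.I * x)) t := by
          have h0 : HasDerivAt (fun s : ℝ => (s : ℂ)) 1 t := by
            simpa using HasDerivAt.ofReal_comp (hasDerivAt_id t)
          have h4 := (h0.const_mul (Complex.I * x)).neg
          exact h4.congr_deriv (by ring)
        exact h3.cexp
      have h5 := h2.mul h1'
      have e1 : (fun s => (f s) y) = fun s : ℝ => Complex.exp (-(Complex.I * x * s)) *
          (((fun s => ((ev V).U s u) y) ∘ fun s => a * s) s) := by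
        funext s
        rw [hf]
        simp only [Function.comp_apply]
        rw [lp.coeFn_smul, Pi.smul_apply, smul_eq_mul]
      rw [e1]
      refine h5.congr_deriv ?_
      have e2 : hopf c₁ (fun y => (f t) y) y = Complex.exp (-(Complex.I * x * t)) * (a *
          hopf c (fun y => ((ev V).U (a * t) u) y) y) := by
        unfold hopf
        rw [hf, hc]
        simp only [lp.coeFn_smul, Pi.smul_apply, smul_eq_mul]
        have : ∀ i : Fin d, Complex.exp (-(Complex.I * x * t)) *
            ((ev V).U (a * t) u) (y + Pi.single i 1) +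
            Complex.exp (-(Complex.I * x * t)) * ((ev V).U (a * t) u) (y - Pi.single i 1) =
            Complex.exp (-(Complex.I * x * t)) * (((ev V).U (a * t) u) (y + Pi.single i 1) +
              ((ev V).U (a * t) u) (y - Pi.single i 1)) := fun i => by ring
        simp only [this]
        rw [← Finset.mul_sum]
        push_cast
        ring
      have e3 : (f t) y = Complex.exp (-(Complex.I * x * t)) * ((ev V).U (a * t) u) y := by
        rw [hf]
        simp only
        rw [lp.coeFn_smul, Pi.smul_apply, smul_eq_mul]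
      rw [e2, e3, h]
      simp only [lp.coeFn_zero, Pi.zero_apply, Function.comp_apply, Complex.real_smul]
      push_cast
      ring
  have h1 := ALL.a_UN d c₁ V₁ (ev₁ V₁) (hev₁ V₁) f (fun _ => 0) continuous_const hsol t
  have h0 : f 0 = u := by
    rw [hf]
    simp only
    rw [mul_zero, (ev V).zero']
    simp
  rw [h0] at h1
  simp only [map_zero, intervalIntegral.integral_zero, add_zero] at h1
  exact h1.symm

/-- the two-time correlation function -/
noncomputable def c2 (μ : Measure ℝ) (ev : (Site d → ℝ) → UG (L2 (Site d))) (l o : ℝ)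
    (X : (Site d → ℝ) → L2 (Site d) →L[ℂ] L2 (Site d)) (s t : ℝ) : ℂ :=
  ∫ V, ⟪X V (dl 0), (ev (pot (af l o) V)).U (-s) (X V ((ev (pot (af l o) V)).U (-t) (dl 0)))⟫_ℂ
    ∂(Measure.infinitePi fun _ : Site d => μ)

variable {μ : Measure ℝ} [IsProbabilityMeasure μ]
  {X : (Site d → ℝ) → L2 (Site d) →L[ℂ] L2 (Site d)}

lemma ml_dl (hX : Cv X) : MemLp (fun V => X V (dl 0)) 2 (Measure.infinitePi fun _ : Site d => μ) := by
  obtain ⟨R, hR⟩ := hX.bdd
  exact MemLp.of_bound (hX.sm 0).aestronglyMeasurable R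
    (Eventually.of_forall fun V => Cv.norm_dl_le hR V 0)

lemma sq_lim {W' W : (Site d → ℝ) → UG (L2 (Site d))}
    (h : Tendsto (fun N : ℕ => eLpNorm (fun V => gP (W' V) (W V) (X V) N (dl 0)) 2
      (Measure.infinitePi fun _ : Site d => μ)) atTop (𝓝 0)) :
    Tendsto (fun N : ℕ => ∫⁻ V, ‖gP (W' V) (W V) (X V) N (dl 0)‖ₑ ^ 2
      ∂(Measure.infinitePi fun _ : Site d => μ)) atTop (𝓝 0) := by
  have h2 := ((ENNReal.continuous_pow 2).tendsto 0).comp h
  simp only [Function.comp_def, n2_sq] at h2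
  simpa using h2

/-- averages of the two-time correlation function along a line, `b ≠ 0` -/
theorem line_b (hd : 0 < d) (hev : ∀ V, IsGrp c V (ev V)) {l o : ℝ} (hl : l ≠ 0)
    (hμ : μ ≪ volume) {R : ℝ} (hR : ∀ᵐ κ ∂μ, |κ| ≤ R) (hX : Cv X) {a b e : ℝ} (hb : b ≠ 0)
    (hab : ¬(a + b = 0 ∧ e = 0)) :
    Tendsto (fun N : ℕ => ((N : ℂ)⁻¹) * ∫ s in (0 : ℝ)..N,
      Complex.exp (-(Complex.I * e * s)) * c2 μ ev l o X (a * s) (b * s)) atTop (𝓝 0) := by
  choose ev' hev' using fun V : Site d → ℝ => ALL.a_EX d (a * c) V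
  choose ev₂ hev₂ using fun V : Site d → ℝ => ALL.a_EX d (-b * c) V
  have h1 : ∀ (V : Site d → ℝ) (t : ℝ) (u : L2 (Site d)),
      (ev' (pot (af (a * l) (a * o - e)) V)).U t u =
        Complex.exp (-(Complex.I * (-e : ℝ) * t)) • (ev (pot (af l o) V)).U (a * t) u :=
    fun V t u => ev_aff hev hev' rfl _ _ _ (fun y => by unfold pot af; ring) t u
  have h2 : ∀ (V : Site d → ℝ) (t : ℝ) (u : L2 (Site d)),
      (ev₂ (pot (af (-b * l) (-b * o)) V)).U t u = (ev (pot (af l o) V)).U (-b * t) u := by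
    intro V t u
    have := ev_aff hev hev₂ rfl (pot (af l o) V) (pot (af (-b * l) (-b * o)) V) 0
      (fun y => by unfold pot af; ring) t u
    rw [this]
    simp
  have hz := zAff hd hev₂ hev' (l := -b * l) (l' := a * l) (o := -b * o) (o' := a * o - e)
    (mul_ne_zero (neg_ne_zero.2 hb) hl) (by
      by_contra hcon
      push Not at hcon
      obtain ⟨p1, p2, -⟩ := hcon
      have p3 : a = -b := mul_right_cancel₀ hl p1
      refine hab ⟨by linarith, ?_⟩
      rw [p3] at p2
      linarith) μ hμ hR hX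
  have hav := cr_avg (ce_af hev' (a * l) (a * o - e)) (ce_af hev₂ (-b * l) (-b * o)) hX
    (sq_lim hz) (ml_dl (μ := μ) hX)
  refine hav.congr fun N => ?_
  congr 1
  refine intervalIntegral.integral_congr fun s _ => ?_
  unfold cr c2
  simp only
  rw [← integral_const_mul]
  refine integral_congr_ae (Eventually.of_forall fun V => ?_)
  simp only
  rw [h1, h2, inner_smul_right]
  have e1 : a * -s = -(a * s) := by ring
  have e2 : -b * s = -(b * s) := by ring
  have e3 : -(Complex.I * ((-e : ℝ) : ℂ) * ((-s : ℝ) : ℂ)) = -(Complex.I * e * s) := by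
    push_cast; ring
  rw [e1, e2, e3]

lemma triv_ev {ev' : (Site d → ℝ) → UG (L2 (Site d))} (hev' : ∀ V, IsGrp 0 V (ev' V))
    (V : Site d → ℝ) (hV : ∀ y, V y = 0) (t : ℝ) (u : L2 (Site d)) : (ev' V).U t u = u := by
  have := ev_aff hev' hev' (a := 0) (by ring) V V 0 (fun y => by rw [hV]; ring) t u
  rw [this, zero_mul, (ev' V).zero']
  simp

/-- averages of the two-time correlation function along a line, `b = 0` -/
theorem line_a (hd : 0 < d) (hev : ∀ V, IsGrp c V (ev V)) {l o : ℝ} (hl : l ≠ 0)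
    (hμ : μ ≪ volume) {R : ℝ} (hR : ∀ᵐ κ ∂μ, |κ| ≤ R) (hX : Cv X) {a e : ℝ} (ha : a ≠ 0) :
    Tendsto (fun N : ℕ => ((N : ℂ)⁻¹) * ∫ s in (0 : ℝ)..N,
      Complex.exp (-(Complex.I * e * s)) * c2 μ ev l o X (a * s) 0) atTop (𝓝 0) := by
  choose ev₂ hev₂ using fun V : Site d → ℝ => ALL.a_EX d (a * c) V
  choose ev' hev' using fun V : Site d → ℝ => ALL.a_EX d 0 V
  have h1 : ∀ (V : Site d → ℝ) (t : ℝ) (u : L2 (Site d)),
      (ev₂ (pot (af (a * l) (a * o - e)) V)).U t u =
        Complex.exp (-(Complex.I * (-e : ℝ) * t)) • (ev (pot (af l o) V)).U (a * t) u :=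
    fun V t u => ev_aff hev hev₂ rfl _ _ _ (fun y => by unfold pot af; ring) t u
  have h2 : ∀ (V : Site d → ℝ) (t : ℝ) (u : L2 (Site d)),
      (ev' (pot (af 0 0) V)).U t u = u := fun V t u =>
    triv_ev hev' _ (fun y => by unfold pot af; ring) t u
  have hXa := hX.adj
  have hz := zAff hd hev₂ hev' (l := a * l) (l' := 0) (o := a * o - e) (o' := 0)
    (mul_ne_zero ha hl) (Or.inl (mul_ne_zero ha hl).symm) μ hμ hR hXa
  have hav := cr_avg (ce_af hev' 0 0) (ce_af hev₂ (a * l) (a * o - e)) hXa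
    (sq_lim hz) (ml_dl (μ := μ) hXa)
  have hav2 := (Complex.continuous_conj.tendsto _).comp hav
  rw [map_zero] at hav2
  refine hav2.congr fun N => ?_
  simp only [Function.comp_apply, map_mul, map_inv₀, Complex.conj_natCast]
  congr 1
  rw [← intervalIntegral.intervalIntegral_conj]
  refine intervalIntegral.integral_congr fun s _ => ?_
  unfold cr c2
  rw [← integral_conj, ← integral_const_mul]
  -- the trace property
  have htr := Cv.tr hX (((ce_af hev₂ (a * l) (a * o - e)).cv (-s)).comp hX) μ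
  have e4 : ∀ V, Complex.exp (-(Complex.I * e * s)) * ⟪X V (dl 0), (ev (pot (af l o) V)).U (-(a * s))
      (X V ((ev (pot (af l o) V)).U (-0) (dl 0)))⟫_ℂ = ⟪X V (dl 0),
        (((ev₂ (pot (af (a * l) (a * o - e)) V)).U (-s)).comp (X V)) (dl 0)⟫_ℂ := by
    intro V
    rw [ContinuousLinearMap.comp_apply, h1, inner_smul_right, neg_zero,
      (ev (pot (af l o) V)).zero']
    have e1 : a * -s = -(a * s) := by ring
    have e3 : -(Complex.I * ((-e : ℝ) : ℂ) * ((-s : ℝ) : ℂ)) = -(Complex.I * e * s) := by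
      push_cast; ring
    rw [e1, e3]
  simp only [e4]
  rw [htr]
  refine integral_congr_ae (Eventually.of_forall fun V => ?_)
  simp only
  rw [inner_conj_symm, h2, ContinuousLinearMap.adjoint_comp, adj_U,
    ContinuousLinearMap.comp_apply, neg_neg]

/-- **lines have mass zero** -/
theorem lines (hd : 0 < d) (hev : ∀ V, IsGrp c V (ev V)) {l o : ℝ} (hl : l ≠ 0)
    (hμ : μ ≪ volume) {R : ℝ} (hR : ∀ᵐ κ ∂μ, |κ| ≤ R) (hX : Cv X) (M : Measure (ℝ × ℝ))
    [IsFiniteMeasure M] (hM : ∀ s t : ℝ, ∫ p, Complex.exp (Complex.I * (s * p.1 + t * p.2)) ∂M =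
      c2 μ ev l o X s t) {a b e : ℝ} (h0 : a ≠ 0 ∨ b ≠ 0) (hab : ¬(a + b = 0 ∧ e = 0)) :
    M {p | a * p.1 + b * p.2 = e} = 0 := by
  have hlim : Tendsto (fun N : ℕ => ((N : ℂ)⁻¹) * ∫ s in (0 : ℝ)..N,
      Complex.exp (-(Complex.I * e * s)) * c2 μ ev l o X (a * s) (b * s)) atTop (𝓝 0) := by
    by_cases hb : b = 0
    · subst hb
      have ha : a ≠ 0 := by
        rcases h0 with h | h
        · exact h
        · exact absurd rfl h
      simp only [zero_mul]
      exact line_a hd hev hl hμ hR hX ha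
    · exact line_b hd hev hl hμ hR hX hb hab
  have hg : Measurable fun p : ℝ × ℝ => a * p.1 + b * p.2 - e := by fun_prop
  have h1 := atom_zero M (fun p => a * p.1 + b * p.2 - e) hg (by
    refine hlim.congr fun N => ?_
    congr 1
    refine intervalIntegral.integral_congr fun s _ => ?_
    rw [← hM, ← integral_const_mul]
    refine integral_congr_ae (Eventually.of_forall fun p => ?_)
    simp only
    rw [← Complex.exp_add]
    congr 1
    push_cast
    ring)
  have e1 : {p : ℝ × ℝ | a * p.1 + b * p.2 - e = 0} = {p | a * p.1 + b * p.2 = e} := by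
    ext p
    simp only [Set.mem_ofPred_eq, sub_eq_zero]
  rwa [e1] at h1

/-- the diagonal -/
theorem diag {l o : ℝ} (hev : ∀ V, IsGrp c V (ev V)) (hX : Cv X)
    (hz : Tendsto (fun N : ℕ => ∫⁻ V, ‖gP (ev (pot (af l o) V)) (ev (pot (af l o) V)) (X V) N
      (dl 0)‖ₑ ^ 2 ∂(Measure.infinitePi fun _ : Site d => μ)) atTop (𝓝 0)) (M : Measure (ℝ × ℝ))
    [IsFiniteMeasure M] (hM : ∀ s t : ℝ, ∫ p, Complex.exp (Complex.I * (s * p.1 + t * p.2)) ∂M =
      c2 μ ev l o X s t) : M {p | p.1 = p.2} = 0 := by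
  have hav := cr_avg (ce_af hev l o) (ce_af hev l o) hX hz (ml_dl (μ := μ) hX)
  have hg : Measurable fun p : ℝ × ℝ => p.1 - p.2 := by fun_prop
  have h1 := atom_zero M (fun p => p.1 - p.2) hg (by
    refine hav.congr fun N => ?_
    congr 1
    refine intervalIntegral.integral_congr fun s _ => ?_
    have h2 := hM s (-s)
    have e1 : cr μ (fun V => ev (pot (af l o) V)) (fun V => ev (pot (af l o) V)) X
        (fun V => X V (dl 0)) (fun _ => dl 0) s = c2 μ ev l o X s (-s) := by
      unfold cr c2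
      rw [neg_neg]
    rw [e1, ← h2]
    refine integral_congr_ae (Eventually.of_forall fun p => ?_)
    simp only
    congr 1
    push_cast
    ring)
  have e1 : {p : ℝ × ℝ | p.1 - p.2 = 0} = {p | p.1 = p.2} := by
    ext p
    simp only [Set.mem_ofPred_eq, sub_eq_zero]
  rwa [e1] at h1

end Pool.Agent.Helper26.Wn
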