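import Pool.Agent.Helper26.Wn.Wif
import Pool.Agent.Helper26.Dj.Lima
import Pool.Agent.Helper26.Nb.Fib

/-! # Stationary random curves -/

set_option autoImplicit false
set_option linter.unusedSectionVars false

open MeasureTheory Filter Topology
open scoped ENNReal NNReal ComplexConjugate InnerProductSpace

namespace Pool.Agent.Helper26.Wn

open Pool.Agent.Helper26.Nb Pool.Agent.Helper26.Dj

lemma innn {E : Type} [NormedAddCommGroup E] [InnerProductSpace ℂ E] (z : E) :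
    ⟪z, z⟫_ℂ = ((‖z‖ ^ 2 : ℝ) : ℂ) := by
  rw [inner_self_eq_norm_sq_to_K]
  push_cast
  rfl

section ran

variable {Ω : Type} [MeasurableSpace Ω] {Y : Type} [NormedAddCommGroup Y] [InnerProductSpace ℂ Y]
  [CompleteSpace Y] {P : Measure Ω} [IsProbabilityMeasure P] {T : ℝ → Ω → Y} {K : ℝ}

lemma ml (hm : ∀ s, StronglyMeasurable (T s)) (hK : ∀ s V, ‖T s V‖ ≤ K) (s : ℝ) :
    MemLp (T s) 2 P :=
  MemLp.of_bound (hm s).aestronglyMeasurable K (Eventually.of_forall fun V => hK s V)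

/-- the curve in `L²` -/
noncomputable def cu (hm : ∀ s, StronglyMeasurable (T s)) (hK : ∀ s V, ‖T s V‖ ≤ K) (s : ℝ) :
    Lp Y 2 P := (ml (P := P) hm hK s).toLp

lemma cu_coe (hm : ∀ s, StronglyMeasurable (T s)) (hK : ∀ s V, ‖T s V‖ ≤ K) (s : ℝ) :
    cu (P := P) hm hK s =ᵐ[P] T s := MemLp.coeFn_toLp _

lemma inner_cu (hm : ∀ s, StronglyMeasurable (T s)) (hK : ∀ s V, ‖T s V‖ ≤ K) (g : Lp Y 2 P)
    (s : ℝ) : ⟪g, cu (P := P) hm hK s⟫_ℂ = ∫ V, ⟪g V, T s V⟫_ℂ ∂P := by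
  rw [L2.inner_def]
  refine integral_congr_ae ?_
  filter_upwards [cu_coe (P := P) hm hK s] with V hV
  rw [hV]

lemma inner_cc (hm : ∀ s, StronglyMeasurable (T s)) (hK : ∀ s V, ‖T s V‖ ≤ K) (s t : ℝ) :
    ⟪cu (P := P) hm hK s, cu (P := P) hm hK t⟫_ℂ = ∫ V, ⟪T s V, T t V⟫_ℂ ∂P := by
  rw [inner_cu]
  refine integral_congr_ae ?_
  filter_upwards [cu_coe (P := P) hm hK s] with V hV
  rw [hV]

lemma cu_cont (hc : ∀ V, Continuous fun s => T s V) (hm : ∀ s, StronglyMeasurable (T s))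
    (hK : ∀ s V, ‖T s V‖ ≤ K) : Continuous (cu (P := P) hm hK) := by
  rw [continuous_iff_continuousAt]
  intro s₀
  rw [ContinuousAt, tendsto_iff_norm_sub_tendsto_zero]
  have h1 : Tendsto (fun s => ‖cu (P := P) hm hK s - cu (P := P) hm hK s₀‖ ^ 2) (𝓝 s₀) (𝓝 0) := by
    have e : ∀ s, ‖cu (P := P) hm hK s - cu (P := P) hm hK s₀‖ ^ 2 =
        ∫ V, ‖T s V - T s₀ V‖ ^ 2 ∂P := by
      intro s
      have h2 : ((‖cu (P := P) hm hK s - cu (P := P) hm hK s₀‖ ^ 2 : ℝ) : ℂ) =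
          ((∫ V, ‖T s V - T s₀ V‖ ^ 2 ∂P : ℝ) : ℂ) := by
        rw [← innn, L2.inner_def, ← integral_complex_ofReal]
        refine integral_congr_ae ?_
        filter_upwards [cu_coe (P := P) hm hK s, cu_coe (P := P) hm hK s₀,
          Lp.coeFn_sub (cu (P := P) hm hK s) (cu (P := P) hm hK s₀)] with V h5 h6 h7
        rw [h7, Pi.sub_apply, h5, h6, innn]
      exact_mod_cast h2
    simp only [e]
    have h2 := tendsto_integral_filter_of_dominated_convergence (μ := P) (l := 𝓝 s₀)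
      (F := fun s V => ‖T s V - T s₀ V‖ ^ 2) (f := fun _ => (0 : ℝ)) (fun _ => (2 * K) ^ 2)
      (Eventually.of_forall fun s => (((hm s).sub (hm s₀)).norm.pow 2).aestronglyMeasurable)
      (Eventually.of_forall fun s => Eventually.of_forall fun V => by
        rw [Real.norm_of_nonneg (by positivity)]
        refine pow_le_pow_left₀ (norm_nonneg _) ((norm_sub_le _ _).trans ?_) 2
        linarith [hK s V, hK s₀ V]) (integrable_const _)
      (Eventually.of_forall fun V => by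
        have h3 : Tendsto (fun s => ‖T s V - T s₀ V‖ ^ 2) (𝓝 s₀) (𝓝 (‖T s₀ V - T s₀ V‖ ^ 2)) :=
          ((((hc V).tendsto s₀).sub tendsto_const_nhds).norm).pow 2
        simpa using h3)
    simpa using h2
  have h2 := h1.sqrt
  rw [Real.sqrt_zero] at h2
  refine h2.congr fun s => ?_
  rw [Real.sqrt_sq (norm_nonneg _)]

lemma cu_stn (hc : ∀ V, Continuous fun s => T s V) (hm : ∀ s, StronglyMeasurable (T s))
    (hK : ∀ s V, ‖T s V‖ ≤ K)
    (hst : ∀ s t r, ∫ V, ⟪T (s + r) V, T (t + r) V⟫_ℂ ∂P = ∫ V, ⟪T s V, T t V⟫_ℂ ∂P) :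
    Stn (cu (P := P) hm hK) := by
  refine ⟨cu_cont hc hm hK, fun s t r => ?_⟩
  rw [inner_cc, inner_cc, hst]

/-- the pointwise weighted integral -/
lemma pw_sm (hc : ∀ V, Continuous fun s => T s V) (hm : ∀ s, StronglyMeasurable (T s))
    (x N : ℝ) : StronglyMeasurable fun V =>
      ∫ s in Set.Ioc (0 : ℝ) N, Complex.exp (Complex.I * x * s) • T s V := by
  have h1 : StronglyMeasurable (Function.uncurry fun (V : Ω) (s : ℝ) =>
      Complex.exp (Complex.I * x * s) • T s V) := by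
    have h2 : StronglyMeasurable (Function.uncurry fun (V : Ω) (s : ℝ) => T s V) :=
      (LM.jm T hc hm).comp_measurable measurable_swap
    have h3 : StronglyMeasurable fun p : Ω × ℝ => Complex.exp (Complex.I * x * p.2) :=
      ((cont_ex x).measurable.comp measurable_snd).stronglyMeasurable
    exact h3.smul h2
  exact h1.integral_prod_right

lemma pw_le (hK : ∀ s V, ‖T s V‖ ≤ K) (x : ℝ) {N : ℝ} (hN : 0 ≤ N) (V : Ω) :
    ‖∫ s in Set.Ioc (0 : ℝ) N, Complex.exp (Complex.I * x * s) • T s V‖ ≤ K * N := by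
  rw [← intervalIntegral.integral_of_le hN]
  have h1 := intervalIntegral.norm_integral_le_of_norm_le_const (a := 0) (b := N) (C := K)
    (f := fun s : ℝ => Complex.exp (Complex.I * x * s) • T s V) (fun s _ => by
      rw [norm_smul, norm_ex, one_mul]; exact hK s V)
  rwa [sub_zero, abs_of_nonneg hN] at h1

lemma pw_ml (hc : ∀ V, Continuous fun s => T s V) (hm : ∀ s, StronglyMeasurable (T s))
    (hK : ∀ s V, ‖T s V‖ ≤ K) (x : ℝ) {N : ℝ} (hN : 0 ≤ N) : MemLp (fun V =>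
      ∫ s in Set.Ioc (0 : ℝ) N, Complex.exp (Complex.I * x * s) • T s V) 2 P :=
  MemLp.of_bound (pw_sm hc hm x N).aestronglyMeasurable (K * N)
    (Eventually.of_forall fun V => pw_le hK x hN V)

lemma fa_cu (hc : ∀ V, Continuous fun s => T s V) (hm : ∀ s, StronglyMeasurable (T s))
    (hK : ∀ s V, ‖T s V‖ ≤ K) (x : ℝ) {N : ℝ} (hN : 0 ≤ N) :
    fa (cu (P := P) hm hK) N x = (pw_ml (P := P) hc hm hK x hN).toLp := by
  have hct := cu_cont (P := P) hc hm hK
  refine ext_inner_left ℂ fun g => ?_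
  have h1 : ⟪g, fa (cu (P := P) hm hK) N x⟫_ℂ =
      ∫ s in (0 : ℝ)..N, Complex.exp (Complex.I * x * s) * (∫ V, ⟪g V, T s V⟫_ℂ ∂P) := by
    unfold fa
    have h2 := ((innerSL ℂ g).intervalIntegral_comp_comm
      ((ci hct x).intervalIntegrable (μ := volume) 0 N)).symm
    refine h2.trans (intervalIntegral.integral_congr fun s _ => ?_)
    show ⟪g, Complex.exp (Complex.I * x * s) • cu (P := P) hm hK s⟫_ℂ = _
    rw [inner_smul_right, inner_cu]
  have h3 : ⟪g, (pw_ml (P := P) hc hm hK x hN).toLp⟫_ℂ =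
      ∫ V, (∫ s in Set.Ioc (0 : ℝ) N, Complex.exp (Complex.I * x * s) * ⟪g V, T s V⟫_ℂ) ∂P := by
    rw [L2.inner_def]
    refine integral_congr_ae ?_
    filter_upwards [MemLp.coeFn_toLp (pw_ml (P := P) hc hm hK x hN)] with V hV
    rw [hV]
    have h4 : Continuous fun s : ℝ => Complex.exp (Complex.I * x * s) • T s V :=
      (cont_ex x).smul (hc V)
    have h5 := ((innerSL ℂ (g V)).intervalIntegral_comp_comm
      (h4.intervalIntegrable (μ := volume) 0 N)).symm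
    rw [intervalIntegral.integral_of_le hN, intervalIntegral.integral_of_le hN] at h5
    refine h5.trans (integral_congr_ae (Eventually.of_forall fun s => ?_))
    show ⟪g V, Complex.exp (Complex.I * x * s) • T s V⟫_ℂ = _
    rw [inner_smul_right]
  rw [h1, h3, intervalIntegral.integral_of_le hN]
  have h6 : ∀ s : ℝ, Complex.exp (Complex.I * x * s) * (∫ V, ⟪g V, T s V⟫_ℂ ∂P) =
      ∫ V, Complex.exp (Complex.I * x * s) * ⟪g V, T s V⟫_ℂ ∂P := fun s =>
    (integral_const_mul _ _).symm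
  simp only [h6]
  refine integral_integral_swap ?_
  have hg1 : Integrable (fun V => ‖g V‖) P := (Lp.memLp g).norm.integrable (by norm_num)
  have hT : StronglyMeasurable (Function.uncurry fun (s : ℝ) (V : Ω) => T s V) := LM.jm T hc hm
  have hfin : IsFiniteMeasure (volume.restrict (Set.Ioc (0 : ℝ) N)) := by infer_instance
  have hg2 : Integrable (fun p : ℝ × Ω => K * ‖g p.2‖)
      ((volume.restrict (Set.Ioc (0 : ℝ) N)).prod P) :=
    (hg1.comp_snd _).const_mul K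
  refine hg2.mono' ?_ (Eventually.of_forall fun p => ?_)
  · have m1 : AEStronglyMeasurable (fun p : ℝ × Ω => g p.2)
        ((volume.restrict (Set.Ioc (0 : ℝ) N)).prod P) :=
      (Lp.aestronglyMeasurable g).comp_snd
    have m2 : AEStronglyMeasurable (fun p : ℝ × Ω => ⟪g p.2, T p.1 p.2⟫_ℂ)
        ((volume.restrict (Set.Ioc (0 : ℝ) N)).prod P) := m1.inner hT.aestronglyMeasurable
    refine AEStronglyMeasurable.mul ?_ m2
    exact ((cont_ex x).measurable.comp measurable_fst).aestronglyMeasurable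
  · simp only [Function.uncurry]
    rw [norm_mul, norm_ex, one_mul, mul_comm K]
    refine (norm_inner_le_norm _ _).trans ?_
    gcongr
    exact hK _ _

lemma cu_avg (hc : ∀ V, Continuous fun s => T s V) (hm : ∀ s, StronglyMeasurable (T s))
    (hK : ∀ s V, ‖T s V‖ ≤ K) (x : ℝ)
    (h : Tendsto (fun N : ℕ => ∫⁻ V, ‖((N : ℂ)⁻¹) • ∫ s in (0 : ℝ)..N,
      Complex.exp (Complex.I * x * s) • T s V‖ₑ ^ 2 ∂P) atTop (𝓝 0)) :
    Tendsto (fun N : ℕ => ‖fa (cu (P := P) hm hK) N x‖ / N) atTop (𝓝 0) := by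
  have h1 : Tendsto (fun N : ℕ => eLpNorm (fun V => ((N : ℂ)⁻¹) • ∫ s in (0 : ℝ)..N,
      Complex.exp (Complex.I * x * s) • T s V) 2 P) atTop (𝓝 0) := by
    rw [ENNReal.tendsto_atTop_zero] at h ⊢
    intro ε hε
    obtain ⟨N, hN⟩ := h (ε ^ 2) (by positivity)
    exact ⟨N, fun n hn => n2_le _ _ _ (hN n hn)⟩
  have h2 := (ENNReal.tendsto_toReal ENNReal.zero_ne_top).comp h1
  rw [ENNReal.toReal_zero] at h2
  refine h2.congr fun N => ?_
  simp only [Function.comp_apply]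
  have hN : (0 : ℝ) ≤ N := Nat.cast_nonneg N
  rw [fa_cu hc hm hK x hN, Lp.norm_toLp]
  have e : (fun V => ((N : ℂ)⁻¹) • ∫ s in (0 : ℝ)..N, Complex.exp (Complex.I * x * s) • T s V) =
      ((N : ℂ)⁻¹) • fun V => ∫ s in Set.Ioc (0 : ℝ) N,
        Complex.exp (Complex.I * x * s) • T s V := by
    funext V
    rw [Pi.smul_apply, intervalIntegral.integral_of_le hN]
  rw [e, eLpNorm_const_smul, ENNReal.toReal_mul, toReal_enorm, norm_inv, Complex.norm_natCast]
  rw [div_eq_inv_mul]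

/-- square integrable correlation functions -/
theorem ran (hc : ∀ V, Continuous fun s => T s V) (hm : ∀ s, StronglyMeasurable (T s))
    (hK : ∀ s V, ‖T s V‖ ≤ K)
    (hst : ∀ s t r, ∫ V, ⟪T (s + r) V, T (t + r) V⟫_ℂ ∂P = ∫ V, ⟪T s V, T t V⟫_ℂ ∂P)
    (hav : ∀ x : ℝ, Tendsto (fun N : ℕ => ∫⁻ V, ‖((N : ℂ)⁻¹) • ∫ s in (0 : ℝ)..N,
      Complex.exp (Complex.I * x * s) • T s V‖ₑ ^ 2 ∂P) atTop (𝓝 0))
    {φ : Ω → Y} (hφ : MemLp φ 2 P) :
    Tendsto (fun M : ℝ => M⁻¹ * ∫ s in (0 : ℝ)..M, ‖∫ V, ⟪φ V, T s V⟫_ℂ ∂P‖ ^ 2) atTop (𝓝 0) := by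
  have hs := cu_stn (P := P) hc hm hK hst
  have hz := fun x => cu_avg (P := P) hc hm hK x (hav x)
  have e : ∀ s, ∫ V, ⟪φ V, T s V⟫_ℂ ∂P = ⟪hφ.toLp, cu (P := P) hm hK s⟫_ℂ := by
    intro s
    rw [inner_cu]
    refine integral_congr_ae ?_
    filter_upwards [hφ.coeFn_toLp] with V hV
    rw [hV]
  simp only [e]
  rw [Metric.tendsto_atTop]
  intro ε hε
  obtain ⟨M₀, hM₀, hM⟩ := wie2 hs hz hφ.toLp (half_pos hε)
  refine ⟨M₀, fun M hMM => ?_⟩
  have hM0 : 0 < M := hM₀.trans_le hMM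
  have h1 := hM M hMM
  have h2 : 0 ≤ ∫ u in (0 : ℝ)..M, ‖⟪hφ.toLp, cu (P := P) hm hK u⟫_ℂ‖ ^ 2 :=
    intervalIntegral.integral_nonneg hM0.le fun u _ => by positivity
  rw [Real.dist_eq, sub_zero, abs_of_nonneg (mul_nonneg (inv_nonneg.2 hM0.le) h2)]
  calc M⁻¹ * _ ≤ M⁻¹ * (ε / 2 * M) := by gcongr
    _ = ε / 2 := by field_simp
    _ < ε := half_lt_self hε

end ran

end Pool.Agent.Helper26.Wn
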