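import Pool.Agent.Helper26.Wn.Zm

/-! # Weak mixing relative to the mean for covariant families -/

set_option autoImplicit false
set_option linter.unusedSectionVars false

open MeasureTheory Filter Topology
open scoped ENNReal NNReal ComplexConjugate InnerProductSpace

namespace Pool.Agent.Helper26.Wn

open Pool.Agent.H5R2.NB Pool.Agent.Helper26.Nb Pool.Agent.Helper26.Cm Pool.Agent.Helper26.Dj

section ran

variable {Ω : Type} [MeasurableSpace Ω] {Y : Type} [NormedAddCommGroup Y] [InnerProductSpace ℂ Y]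
  [CompleteSpace Y] {P : Measure Ω} [IsProbabilityMeasure P] {T : ℝ → Ω → Y} {K : ℝ}

lemma pw_zero (N : ℝ) (hN : 0 ≤ N) (V : Ω) :
    ∫ s in Set.Ioc (0 : ℝ) N, Complex.exp (Complex.I * (0 : ℝ) * s) • T s V =
      ∫ s in (0 : ℝ)..N, T s V := by
  rw [intervalIntegral.integral_of_le hN]
  refine integral_congr_ae (Eventually.of_forall fun s => ?_)
  simp

theorem ran3 (hc : ∀ V, Continuous fun s => T s V) (hm : ∀ s, StronglyMeasurable (T s))
    (hK : ∀ s V, ‖T s V‖ ≤ K)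
    (hst : ∀ s t r, ∫ V, ⟪T (s + r) V, T (t + r) V⟫_ℂ ∂P = ∫ V, ⟪T s V, T t V⟫_ℂ ∂P)
    (hav : ∀ x : ℝ, x ≠ 0 → Tendsto (fun N : ℕ => ∫⁻ V, ‖((N : ℂ)⁻¹) • ∫ s in (0 : ℝ)..N,
      Complex.exp (Complex.I * x * s) • T s V‖ₑ ^ 2 ∂P) atTop (𝓝 0)) :
    ∃ b : Ω → Y, ∀ φ : Ω → Y, MemLp φ 2 P →
    Tendsto (fun M : ℝ => M⁻¹ * ∫ s in (0 : ℝ)..M,
      ‖(∫ V, ⟪φ V, T s V⟫_ℂ ∂P) - ∫ V, ⟪φ V, b V⟫_ℂ ∂P‖ ^ 2) atTop (𝓝 0) := by
  obtain ⟨b, hb, hlim, -⟩ := LM.main P T K hc hm hK hst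
  have hs := cu_stn (P := P) hc hm hK hst
  have hz := fun (x : ℝ) (hx : x ≠ 0) => cu_avg (P := P) hc hm hK x (hav x hx)
  have hav0 : ∀ N : ℕ, MemLp (fun V => ((N : ℂ)⁻¹) • ∫ s in (0 : ℝ)..N, T s V) 2 P := by
    intro N
    have h1 := (pw_ml (P := P) hc hm hK 0 (Nat.cast_nonneg N)).const_smul ((N : ℂ)⁻¹)
    refine (memLp_congr_ae (Eventually.of_forall fun V => ?_)).1 h1
    rw [Pi.smul_apply, pw_zero _ (Nat.cast_nonneg N)]
  have hlim2 : Tendsto (fun N : ℕ => eLpNorm ((fun V => ((N : ℂ)⁻¹) •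
      ∫ s in (0 : ℝ)..N, T s V) - b) 2 P) atTop (𝓝 0) := by
    rw [ENNReal.tendsto_atTop_zero] at hlim ⊢
    intro ε hε
    obtain ⟨N, hN⟩ := hlim (ε ^ 2) (by positivity)
    exact ⟨N, fun n hn => n2_le _ _ _ (hN n hn)⟩
  have hbm : MemLp b 2 P := by
    refine ⟨hb, ?_⟩
    obtain ⟨N, hN⟩ := (ENNReal.tendsto_atTop_zero.1 hlim2) 1 one_pos
    have h1 := hN N le_rfl
    have e : b = (fun V => ((N : ℂ)⁻¹) • ∫ s in (0 : ℝ)..N, T s V) -
        ((fun V => ((N : ℂ)⁻¹) • ∫ s in (0 : ℝ)..N, T s V) - b) := by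
      rw [sub_sub_cancel]
    rw [e]
    refine (eLpNorm_sub_le (hav0 N).1 ((hav0 N).1.sub hb) (by norm_num)).trans_lt ?_
    exact ENNReal.add_lt_top.2 ⟨(hav0 N).2, h1.trans_lt ENNReal.one_lt_top⟩
  have hbl : Tendsto (fun N : ℕ => ((N : ℂ)⁻¹) • fa (cu (P := P) hm hK) N 0) atTop
      (𝓝 hbm.toLp) := by
    rw [tendsto_iff_norm_sub_tendsto_zero]
    have h2 := (ENNReal.tendsto_toReal ENNReal.zero_ne_top).comp hlim2
    rw [ENNReal.toReal_zero] at h2
    refine h2.congr fun N => ?_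
    have e1 : ((N : ℂ)⁻¹) • fa (cu (P := P) hm hK) N 0 = (hav0 N).toLp := by
      rw [fa_cu hc hm hK 0 (Nat.cast_nonneg N), ← MemLp.toLp_const_smul]
      refine (MemLp.toLp_eq_toLp_iff _ _).2 (Eventually.of_forall fun V => ?_)
      rw [Pi.smul_apply, pw_zero _ (Nat.cast_nonneg N)]
    rw [e1, ← MemLp.toLp_sub, Lp.norm_toLp]
    rfl
  refine ⟨b, fun φ hφ => ?_⟩
  have e : ∀ s, ∫ V, ⟪φ V, T s V⟫_ℂ ∂P = ⟪hφ.toLp, cu (P := P) hm hK s⟫_ℂ := by
    intro s
    rw [inner_cu]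
    refine integral_congr_ae ?_
    filter_upwards [hφ.coeFn_toLp] with V hV
    rw [hV]
  have e' : ∫ V, ⟪φ V, b V⟫_ℂ ∂P = ⟪hφ.toLp, hbm.toLp⟫_ℂ := by
    rw [L2.inner_def]
    refine integral_congr_ae ?_
    filter_upwards [hφ.coeFn_toLp, hbm.coeFn_toLp] with V hV hV2
    rw [hV, hV2]
  simp only [e, e']
  rw [Metric.tendsto_atTop]
  intro ε hε
  obtain ⟨M₀, hM₀, hM⟩ := wie4 hs hbl hz hφ.toLp (half_pos hε)
  refine ⟨M₀, fun M hMM => ?_⟩
  have hM0 : 0 < M := hM₀.trans_le hMM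
  have h1 := hM M hMM
  have h2 : 0 ≤ ∫ u in (0 : ℝ)..M,
      ‖⟪hφ.toLp, cu (P := P) hm hK u⟫_ℂ - ⟪hφ.toLp, hbm.toLp⟫_ℂ‖ ^ 2 :=
    intervalIntegral.integral_nonneg hM0.le fun u _ => by positivity
  rw [Real.dist_eq, sub_zero, abs_of_nonneg (mul_nonneg (inv_nonneg.2 hM0.le) h2)]
  calc M⁻¹ * _ ≤ M⁻¹ * (ε / 2 * M) := by gcongr
    _ = ε / 2 := by field_simp
    _ < ε := half_lt_self hε

end ran

variable {d : ℕ} {α : Type} [MeasurableSpace α]
  {W' W : (Site d → α) → UG (L2 (Site d))}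
  {X : (Site d → α) → L2 (Site d) →L[ℂ] L2 (Site d)} {ρ : Measure α} [IsProbabilityMeasure ρ]

/-- all frequency averages at the origin vanish, apart from frequency zero -/
def Hav' (ρ : Measure α) (W' W : (Site d → α) → UG (L2 (Site d)))
    (X : (Site d → α) → L2 (Site d) →L[ℂ] L2 (Site d)) : Prop :=
  ∀ x : ℝ, x ≠ 0 → Tendsto (fun N : ℕ => ∫⁻ V, ‖((N : ℂ)⁻¹) • ∫ s in (0 : ℝ)..N,
    Complex.exp (Complex.I * x * s) • tb W' W X s V‖ₑ ^ 2
      ∂(Measure.infinitePi fun _ : Site d => ρ)) atTop (𝓝 0)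

theorem m_zero (hW' : CE W') (hW : CE W) (hX : Cv X) (hav : Hav' ρ W' W X)
    {φ : (Site d → α) → L2 (Site d)}
    (hφ : MemLp φ 2 (Measure.infinitePi fun _ : Site d => ρ)) :
    Zm (cr ρ W' W X φ fun _ => dl 0) := by
  have hc0 : StronglyMeasurable fun _ : Site d → α => (dl 0 : L2 (Site d)) :=
    stronglyMeasurable_const
  have hm0 : MemLp (fun _ : Site d → α => (dl 0 : L2 (Site d))) 2
      (Measure.infinitePi fun _ : Site d => ρ) := memLp_const _
  obtain ⟨R, hR⟩ := hX.bdd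
  obtain ⟨b, hb⟩ := ran3 (P := Measure.infinitePi fun _ : Site d => ρ)
    (T := fun s V => tb W' W X s V) (K := R)
    (fun V => cont_gP (W' V) (W V) (X V) (dl 0))
    (fun s => (hW'.cv (-s)).sm_apply (hX.sm_apply ((hW.cv s).sm_apply hc0)))
    (fun s V => by
      unfold tb
      rw [(W' V).norm']
      refine ((X V).le_opNorm _).trans ?_
      rw [(W V).norm', STAT.norm_dl, mul_one]
      exact hR V) (fun s t r => stat_w hW' hW hX ρ s t r) hav
  exact ⟨∫ V, ⟪φ V, b V⟫_ℂ ∂(Measure.infinitePi fun _ : Site d => ρ),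
    (cr_cont hW' hW hX hφ hc0 hm0).sub continuous_const, hb φ hφ⟩

/-- change of the site -/
lemma cr_site (hW' : CE W') (hW : CE W) (hX : Cv X)
    {φ : (Site d → α) → L2 (Site d)}
    (hφ : MemLp φ 2 (Measure.infinitePi fun _ : Site d => ρ)) (z : Site d) :
    ∃ φ' : (Site d → α) → L2 (Site d), MemLp φ' 2 (Measure.infinitePi fun _ : Site d => ρ) ∧
      cr ρ W' W X φ (fun _ => dl z) = cr ρ W' W X φ' fun _ => dl 0 := by
  obtain ⟨S, hS⟩ := (t_OPS d).1 (-z)
  set S' := ContinuousLinearMap.adjoint S with hS'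
  set φ' : (Site d → α) → L2 (Site d) := fun V => S' (φ (sh (-z) V)) with hφ'
  have hmp := mp_sh (d := d) ρ (-z)
  have hmpz := mp_sh (d := d) ρ z
  have hφm : MemLp φ' 2 (Measure.infinitePi fun _ : Site d => ρ) :=
    S'.comp_memLp' (hφ.comp_measurePreserving hmp)
  refine ⟨φ', hφm, ?_⟩
  funext s
  unfold cr
  have hc0 : StronglyMeasurable fun _ : Site d → α => (dl 0 : L2 (Site d)) :=
    stronglyMeasurable_const
  have hF := cr_meas hW' hW hX hφm.1 hc0 s
  have h1 : ∫ V, ⟪φ' V, (W' V).U (-s) (X V ((W V).U s (dl 0)))⟫_ℂ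
      ∂(Measure.infinitePi fun _ : Site d => ρ) =
      ∫ V, ⟪φ' (sh z V), (W' (sh z V)).U (-s) (X (sh z V) ((W (sh z V)).U s (dl 0)))⟫_ℂ
      ∂(Measure.infinitePi fun _ : Site d => ρ) := by
    have h2 := integral_map (μ := Measure.infinitePi fun _ : Site d => ρ)
      hmpz.measurable.aemeasurable (f := fun V => ⟪φ' V, (W' V).U (-s)
        (X V ((W V).U s (dl 0)))⟫_ℂ) (by rw [hmpz.map_eq]; exact hF)
    rw [hmpz.map_eq] at h2
    exact h2
  rw [h1]
  refine integral_congr_ae (Eventually.of_forall fun V => ?_)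
  simp only
  have e1 : sh (-z) (sh z V) = V := by
    rw [sh_sh, neg_add_cancel, sh_zero]
  have e2 : φ' (sh z V) = S' (φ V) := by
    rw [hφ']
    simp only
    rw [e1]
  rw [e2, hS', ContinuousLinearMap.adjoint_inner_left]
  congr 1
  rw [← LIMB.shift_dl z S hS]
  have h1 := cov_neg (hW.cv s) hS V (dl 0)
  have h2 := cov_neg hX hS V ((W (sh z V)).U s (dl 0))
  have h3 := cov_neg (hW'.cv (-s)) hS V (X (sh z V) ((W (sh z V)).U s (dl 0)))
  rw [h1, h2, h3]

/-- a class of functions closed under sums, multiples and uniform limits -/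
structure Cl (C : (ℝ → ℂ) → Prop) : Prop where
  smul : ∀ c, C c → ∀ k : ℂ, C fun s => k * c s
  sum : ∀ (ι : Type) (s : Finset ι) (f : ι → ℝ → ℂ), (∀ i ∈ s, C (f i)) → C fun t => ∑ i ∈ s, f i t
  lim : ∀ c, Continuous c → (∀ ε : ℝ, 0 < ε → ∃ c' : ℝ → ℂ, C c' ∧
    ∀ s, ‖c s - c' s‖ ^ 2 ≤ ε) → C c

lemma cl_Zm : Cl Zm := ⟨fun _ h k => h.smul k, fun _ s _ h => Zm.sum s h,
  fun _ hc h => Zm.lim' hc h⟩

/-- extension from the origin to all random states -/
theorem ext_cl (hW' : CE W') (hW : CE W) (hX : Cv X) {C : (ℝ → ℂ) → Prop} (hC : Cl C)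
    (h0 : ∀ φ : (Site d → α) → L2 (Site d), MemLp φ 2 (Measure.infinitePi fun _ : Site d => ρ) →
      C (cr ρ W' W X φ fun _ => dl 0))
    {φ ψ : (Site d → α) → L2 (Site d)}
    (hφ : MemLp φ 2 (Measure.infinitePi fun _ : Site d => ρ)) (hψm : StronglyMeasurable ψ)
    (hψ : MemLp ψ 2 (Measure.infinitePi fun _ : Site d => ρ)) : C (cr ρ W' W X φ ψ) := by
  classical
  obtain ⟨R, hR⟩ := hX.bdd
  set P := Measure.infinitePi fun _ : Site d => ρ with hP
  have hc : ∀ y : L2 (Site d), StronglyMeasurable fun _ : Site d → α => y :=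
    fun y => stronglyMeasurable_const
  have hm : ∀ y : L2 (Site d), MemLp (fun _ : Site d → α => y) 2 P := fun y => memLp_const _
  -- sites
  have hsite : ∀ φ : (Site d → α) → L2 (Site d), MemLp φ 2 P → ∀ z,
      C (cr ρ W' W X φ fun _ => dl z) := by
    intro φ hφ z
    obtain ⟨φ', hφ', e⟩ := cr_site hW' hW hX hφ z
    rw [e]
    exact h0 φ' hφ'
  -- deterministic states
  have hdet : ∀ φ : (Site d → α) → L2 (Site d), MemLp φ 2 P → ∀ x : L2 (Site d),
      C (cr ρ W' W X φ fun _ => x) := by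
    intro φ hφ x
    set A := (eLpNorm φ 2 P).toReal with hA
    refine hC.lim _ (cr_cont hW' hW hX hφ (hc x) (hm x)) fun ε hε => ?_
    have hlim : Tendsto (fun s : Finset (Site d) => (R * (A * ‖x - CV.PF s x‖)) ^ 2) atTop
        (𝓝 0) := by
      have h8 := (tendsto_const_nhds (x := x)).sub (CV.PF_tendsto x)
      rw [sub_self] at h8
      have h9 := (((h8.norm).const_mul A).const_mul R).pow 2
      simpa using h9
    obtain ⟨F, hF⟩ := ((tendsto_order.1 hlim).2 _ hε).exists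
    refine ⟨fun s => ∑ z ∈ F, x z * cr ρ W' W X φ (fun _ => dl z) s,
      hC.sum _ F _ fun z _ => hC.smul _ (hsite φ hφ z) _, fun s => ?_⟩
    have e : ∑ z ∈ F, x z * cr ρ W' W X φ (fun _ => dl z) s =
        cr ρ W' W X φ (fun _ => CV.PF F x) s := by
      unfold cr
      have e1 : ∀ z, x z * (∫ V, ⟪φ V, (W' V).U (-s) (X V ((W V).U s (dl z)))⟫_ℂ
          ∂(Measure.infinitePi fun _ : Site d => ρ)) =
          ∫ V, x z * ⟪φ V, (W' V).U (-s) (X V ((W V).U s (dl z)))⟫_ℂ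
          ∂(Measure.infinitePi fun _ : Site d => ρ) := fun z => (integral_const_mul _ _).symm
      simp only [e1]
      rw [← integral_finsetSum F fun z _ => (cr_int hW' hW hX hφ (hc _) (hm _) s).const_mul _]
      refine integral_congr_ae (Eventually.of_forall fun V => ?_)
      simp only
      rw [PF_eq, map_sum, map_sum, map_sum, inner_sum]
      refine Finset.sum_congr rfl fun z _ => ?_
      rw [map_smul, map_smul, map_smul, inner_smul_right]
    beta_reduce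
    rw [e, cr_sub hW' hW hX hφ (hc _) (hm _) (hc _) (hm _)]
    have h1 := cr_le (ρ := ρ) (W' := W') (W := W) hR hφ ((hm x).sub (hm (CV.PF F x))) s
    have h2 : (eLpNorm ((fun _ : Site d → α => x) - fun _ => CV.PF F x) 2 P).toReal =
        ‖x - CV.PF F x‖ := by
      have e3 : ((fun _ : Site d → α => x) - fun _ => CV.PF F x) = fun _ => x - CV.PF F x := by
        funext V
        rfl
      rw [e3, eLpNorm_const _ (by norm_num) (NeZero.ne _), measure_univ]
      simp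
    rw [h2] at h1
    refine (pow_le_pow_left₀ (norm_nonneg _) h1 2).trans hF.le
  -- random states
  set A := (eLpNorm φ 2 P).toReal with hA
  refine hC.lim _ (cr_cont hW' hW hX hφ hψm hψ) fun ε hε => ?_
  obtain ⟨η, hη0, hη⟩ : ∃ η : ℝ, 0 < η ∧ (R * (A * η)) ^ 2 ≤ ε := by
    have h1 : Tendsto (fun η : ℝ => (R * (A * η)) ^ 2) (𝓝[>] 0) (𝓝 0) := by
      have h2 : Tendsto (fun η : ℝ => (R * (A * η)) ^ 2) (𝓝 0) (𝓝 ((R * (A * 0)) ^ 2)) :=
        (by fun_prop : Continuous fun η : ℝ => (R * (A * η)) ^ 2).tendsto 0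
      have h3 := h2.mono_left (nhdsWithin_le_nhds (s := Set.Ioi (0 : ℝ)))
      simpa using h3
    obtain ⟨η, h3, h4⟩ := (((tendsto_order.1 h1).2 _ hε).and
      (self_mem_nhdsWithin (a := (0 : ℝ)) (s := Set.Ioi 0))).exists
    exact ⟨η, h4, h3.le⟩
  obtain ⟨g, hg, hgm⟩ := hψ.exists_simpleFunc_eLpNorm_sub_lt (by norm_num)
    (ε := ENNReal.ofReal η) (by simpa using hη0)
  refine ⟨fun s => ∑ x ∈ g.range, cr ρ W' W X ((g ⁻¹' {x}).indicator φ) (fun _ => x) s,
    hC.sum _ _ _ fun x _ => hdet _ (hφ.indicator (g.measurableSet_fiber x)) x,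
    fun s => ?_⟩
  have e : ∑ x ∈ g.range, cr ρ W' W X ((g ⁻¹' {x}).indicator φ) (fun _ => x) s =
      cr ρ W' W X φ g s := by
    unfold cr
    rw [← integral_finsetSum g.range fun x _ => cr_int hW' hW hX
      (hφ.indicator (g.measurableSet_fiber x)) stronglyMeasurable_const (memLp_const x) s]
    refine integral_congr_ae (Eventually.of_forall fun V => ?_)
    simp only
    rw [Finset.sum_eq_single (g V)]
    · rw [Set.indicator_of_mem (by simp)]
    · intro x _ hx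
      rw [Set.indicator_of_notMem (by simpa using hx.symm), inner_zero_left]
    · intro h
      exact absurd (g.mem_range_self V) h
  beta_reduce
  rw [e, cr_sub hW' hW hX hφ hψm hψ g.stronglyMeasurable hgm]
  have h1 := cr_le (ρ := ρ) (W' := W') (W := W) hR hφ (hψ.sub hgm) s
  have hR0 : 0 ≤ R := by
    have hne : Nonempty (Site d → α) := by
      by_contra h
      rw [not_nonempty_iff] at h
      have h1 : P Set.univ = 1 := measure_univ
      rw [Set.eq_empty_of_isEmpty (Set.univ : Set (Site d → α)), measure_empty] at h1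
      exact zero_ne_one h1
    exact (norm_nonneg _).trans (hR hne.some)
  have h2 : (eLpNorm (ψ - ⇑g) 2 P).toReal ≤ η := by
    refine ENNReal.toReal_le_of_le_ofReal hη0.le hg.le
  have hA0 : 0 ≤ A := ENNReal.toReal_nonneg
  refine (pow_le_pow_left₀ (norm_nonneg _) (h1.trans ?_) 2).trans hη
  gcongr

/-- **weak mixing relative to the mean** -/
theorem m_all (hW' : CE W') (hW : CE W) (hX : Cv X) (hav : Hav' ρ W' W X)
    {φ ψ : (Site d → α) → L2 (Site d)}
    (hφ : MemLp φ 2 (Measure.infinitePi fun _ : Site d => ρ)) (hψm : StronglyMeasurable ψ)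
    (hψ : MemLp ψ 2 (Measure.infinitePi fun _ : Site d => ρ)) :
    Zm (cr ρ W' W X φ ψ) :=
  ext_cl hW' hW hX cl_Zm (fun _ hφ => m_zero hW' hW hX hav hφ) hφ hψm hψ

end Pool.Agent.Helper26.Wn
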