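import Mathlib

/-! # Frequency averages of stationary curves in a Hilbert space -/

set_option autoImplicit false
set_option linter.unusedSectionVars false

open MeasureTheory Filter Topology
open scoped ENNReal NNReal ComplexConjugate InnerProductSpace

namespace Pool.Agent.Helper26.Wn

/-- the triangle kernel -/
lemma tri (f : ℝ → ℂ) (hf : Continuous f) {T : ℝ} (hT : 0 ≤ T) :
    ∫ t in (0 : ℝ)..T, (∫ s in (0 : ℝ)..T, f (t - s)) =
      ∫ u in (-T)..T, ((T - |u| : ℝ) : ℂ) * f u := by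
  set F : ℝ → ℂ := fun x => ∫ u in (0 : ℝ)..x, f u with hF
  have hFd : ∀ x, HasDerivAt F (f x) x := fun x => (hf.integral_hasStrictDerivAt 0 x).hasDerivAt
  have hFc : Continuous F := continuous_iff_continuousAt.2 fun x => (hFd x).continuousAt
  have h1 : ∀ t, ∫ s in (0 : ℝ)..T, f (t - s) = F t - F (t - T) := by
    intro t
    rw [intervalIntegral.integral_comp_sub_left, sub_zero, hF]
    exact (intervalIntegral.integral_interval_sub_left (hf.intervalIntegrable _ _)
      (hf.intervalIntegrable _ _)).symm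
  simp only [h1]
  have hFc' : Continuous fun t => F (t - T) := hFc.comp (by fun_prop)
  rw [intervalIntegral.integral_sub (hFc.intervalIntegrable _ _) (hFc'.intervalIntegrable _ _),
    intervalIntegral.integral_comp_sub_right, zero_sub, sub_self]
  have hv : ∀ x : ℝ, HasDerivAt (fun x : ℝ => (x : ℂ)) 1 x := fun x =>
    Complex.ofRealCLM.hasDerivAt
  have parts : ∀ p q : ℝ, ∫ x in p..q, F x = F q * q - F p * p - ∫ x in p..q, f x * x := by
    intro p q
    have h := intervalIntegral.integral_mul_deriv_eq_deriv_mul (a := p) (b := q)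
      (u := F) (v := fun x : ℝ => (x : ℂ)) (u' := f) (v' := fun _ => (1 : ℂ))
      (fun x _ => hFd x) (fun x _ => hv x) (hf.intervalIntegrable _ _)
      (continuous_const.intervalIntegrable _ _)
    simpa using h
  rw [parts, parts]
  have hg : Continuous fun u : ℝ => ((T - |u| : ℝ) : ℂ) * f u := by fun_prop
  have hm : Continuous fun u : ℝ => f u * (u : ℂ) := by fun_prop
  rw [← intervalIntegral.integral_add_adjacent_intervals (hg.intervalIntegrable (-T) 0)
    (hg.intervalIntegrable 0 T)]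
  have e1 : ∫ u in (-T)..0, ((T - |u| : ℝ) : ℂ) * f u =
      (T : ℂ) * (∫ u in (-T)..0, f u) + ∫ u in (-T)..0, f u * (u : ℂ) := by
    rw [← intervalIntegral.integral_const_mul, ← intervalIntegral.integral_add
      ((by fun_prop : Continuous fun u => (T : ℂ) * f u).intervalIntegrable _ _)
      (hm.intervalIntegrable _ _)]
    refine intervalIntegral.integral_congr fun u hu => ?_
    rw [Set.uIcc_of_le (by linarith)] at hu
    rw [abs_of_nonpos hu.2]
    push_cast
    ring
  have e2 : ∫ u in (0 : ℝ)..T, ((T - |u| : ℝ) : ℂ) * f u =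
      (T : ℂ) * (∫ u in (0 : ℝ)..T, f u) - ∫ u in (0 : ℝ)..T, f u * (u : ℂ) := by
    rw [← intervalIntegral.integral_const_mul, ← intervalIntegral.integral_sub
      ((by fun_prop : Continuous fun u => (T : ℂ) * f u).intervalIntegrable _ _)
      (hm.intervalIntegrable _ _)]
    refine intervalIntegral.integral_congr fun u hu => ?_
    rw [Set.uIcc_of_le hT] at hu
    rw [abs_of_nonneg hu.1]
    push_cast
    ring
  have e3 : F (-T) = -∫ u in (-T)..0, f u := by
    rw [hF, ← intervalIntegral.integral_symm]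
  have e4 : F T = ∫ u in (0 : ℝ)..T, f u := rfl
  have e5 : F 0 = 0 := by simp [hF]
  rw [e1, e2, e3, e4, e5]
  push_cast
  ring

variable {X : Type} [NormedAddCommGroup X] [InnerProductSpace ℂ X] [CompleteSpace X]

/-- stationary curves -/
structure Stn (a : ℝ → X) : Prop where
  ct : Continuous a
  st : ∀ s t r, ⟪a (s + r), a (t + r)⟫_ℂ = ⟪a s, a t⟫_ℂ

/-- frequency average, not normalised -/
noncomputable def fa (a : ℝ → X) (T x : ℝ) : X :=
  ∫ s in (0 : ℝ)..T, Complex.exp (Complex.I * x * s) • a s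

namespace Stn

variable {a : ℝ → X}

lemma inn (h : Stn a) (s t : ℝ) : ⟪a s, a t⟫_ℂ = ⟪a 0, a (t - s)⟫_ℂ := by
  have := h.st 0 (t - s) s
  rwa [zero_add, sub_add_cancel] at this

lemma nrm (h : Stn a) (s : ℝ) : ‖a s‖ = ‖a 0‖ := by
  have h1 := h.inn s s
  rw [sub_self] at h1
  have h2 : ‖a s‖ ^ 2 = ‖a 0‖ ^ 2 := by
    have e1 := inner_self_eq_norm_sq (𝕜 := ℂ) (a s)
    have e2 := inner_self_eq_norm_sq (𝕜 := ℂ) (a 0)
    rw [← e1, ← e2, h1]
  exact (sq_eq_sq₀ (norm_nonneg _) (norm_nonneg _)).1 h2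

lemma ctC (h : Stn a) : Continuous fun u => ⟪a 0, a u⟫_ℂ := continuous_const.inner h.ct

lemma nC (h : Stn a) (u : ℝ) : ‖⟪a 0, a u⟫_ℂ‖ ≤ ‖a 0‖ ^ 2 := by
  refine (norm_inner_le_norm _ _).trans ?_
  rw [h.nrm u, sq]

end Stn

lemma norm_ex (x s : ℝ) : ‖Complex.exp (Complex.I * x * s)‖ = 1 := by
  rw [show Complex.I * x * s = ((x * s : ℝ) : ℂ) * Complex.I by push_cast; ring]
  exact Complex.norm_exp_ofReal_mul_I _

lemma conj_ex (x s : ℝ) : conj (Complex.exp (Complex.I * x * s)) =
    Complex.exp (Complex.I * x * (-s)) := by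
  rw [← Complex.exp_conj]
  congr 1
  simp

lemma cont_ex (x : ℝ) : Continuous fun s : ℝ => Complex.exp (Complex.I * x * s) := by fun_prop

/-- the norm of a weighted integral -/
lemma norm_int (a : ℝ → X) (ha : Continuous a) (w : ℝ → ℂ) (hw : Continuous w) (T : ℝ) :
    ((‖∫ s in (0 : ℝ)..T, w s • a s‖ ^ 2 : ℝ) : ℂ) =
      ∫ t in (0 : ℝ)..T, (∫ s in (0 : ℝ)..T, conj (w s) * w t * ⟪a s, a t⟫_ℂ) := by
  set y := ∫ s in (0 : ℝ)..T, w s • a s with hy
  have hc : Continuous fun s => w s • a s := hw.smul ha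
  have h1 : ((‖y‖ ^ 2 : ℝ) : ℂ) = ⟪y, y⟫_ℂ := by
    rw [inner_self_eq_norm_sq_to_K]
    push_cast
    rfl
  have h2 : ∀ z : X, ⟪z, y⟫_ℂ = ∫ t in (0 : ℝ)..T, ⟪z, w t • a t⟫_ℂ := by
    intro z
    exact ((innerSL ℂ z).intervalIntegral_comp_comm (hc.intervalIntegrable _ _)).symm
  rw [h1, h2]
  refine intervalIntegral.integral_congr fun t _ => ?_
  have h3 : ⟪y, w t • a t⟫_ℂ = conj ⟪w t • a t, y⟫_ℂ := (inner_conj_symm _ _).symm
  rw [h3, h2, ← intervalIntegral.intervalIntegral_conj]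
  refine intervalIntegral.integral_congr fun s _ => ?_
  rw [inner_conj_symm, inner_smul_left, inner_smul_right]
  ring

end Pool.Agent.Helper26.Wn
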