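import Pool.Agent.Helper26.Wn.Tri

/-! # Uniformity in the frequency -/

set_option autoImplicit false
set_option linter.unusedSectionVars false

open MeasureTheory Filter Topology
open scoped ENNReal NNReal ComplexConjugate InnerProductSpace

namespace Pool.Agent.Helper26.Wn

variable {X : Type} [NormedAddCommGroup X] [InnerProductSpace ℂ X] [CompleteSpace X] {a : ℝ → X}

lemma fa_cont (ha : Continuous a) (T : ℝ) : Continuous fun x : ℝ => fa a T x := by
  unfold fa
  refine intervalIntegral.continuous_parametric_intervalIntegral_of_continuous'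
    (f := fun (x : ℝ) (s : ℝ) => Complex.exp (Complex.I * x * s) • a s) ?_ _ _
  have h1 : Continuous fun p : ℝ × ℝ => Complex.exp (Complex.I * p.1 * p.2) := by fun_prop
  exact h1.smul (ha.comp continuous_snd)

theorem norm_fa (h : Stn a) {T : ℝ} (hT : 0 ≤ T) (x : ℝ) :
    ((‖fa a T x‖ ^ 2 : ℝ) : ℂ) = ∫ u in (-T)..T,
      ((T - |u| : ℝ) : ℂ) * (Complex.exp (Complex.I * x * u) * ⟪a 0, a u⟫_ℂ) := by
  have h1 : Continuous fun u : ℝ => Complex.exp (Complex.I * x * u) * ⟪a 0, a u⟫_ℂ :=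
    (cont_ex x).mul h.ctC
  unfold fa
  rw [norm_int a h.ct _ (cont_ex x), ← tri _ h1 hT]
  refine intervalIntegral.integral_congr fun t _ => ?_
  refine intervalIntegral.integral_congr fun s _ => ?_
  rw [h.inn s t, conj_ex, ← Complex.exp_add]
  congr 2
  push_cast
  ring

theorem norm_shift (h : Stn a) (m r x : ℝ) :
    ‖∫ s in (0 : ℝ)..m, Complex.exp (Complex.I * x * s) • a (s + r)‖ = ‖fa a m x‖ := by
  have hc : Continuous fun s => a (s + r) := h.ct.comp (by fun_prop)
  have h1 := norm_int (fun s => a (s + r)) hc _ (cont_ex x) m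
  have h2 := norm_int a h.ct _ (cont_ex x) m
  simp only [h.st] at h1
  rw [← h2] at h1
  have h3 : ‖∫ s in (0 : ℝ)..m, Complex.exp (Complex.I * x * s) • a (s + r)‖ ^ 2 =
      ‖fa a m x‖ ^ 2 := by exact_mod_cast h1
  exact (sq_eq_sq₀ (norm_nonneg _) (norm_nonneg _)).1 h3

lemma ci (ha : Continuous a) (x : ℝ) :
    Continuous fun s : ℝ => Complex.exp (Complex.I * x * s) • a s := (cont_ex x).smul ha

lemma piece (h : Stn a) (p m x : ℝ) :
    ‖∫ s in p..(p + m), Complex.exp (Complex.I * x * s) • a s‖ = ‖fa a m x‖ := by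
  have e : ∫ s in p..(p + m), Complex.exp (Complex.I * x * s) • a s =
      Complex.exp (Complex.I * x * p) • ∫ s in (0 : ℝ)..m,
        Complex.exp (Complex.I * x * s) • a (s + p) := by
    rw [← intervalIntegral.integral_smul]
    have h1 := intervalIntegral.integral_comp_add_right (a := 0) (b := m)
      (fun s : ℝ => Complex.exp (Complex.I * x * s) • a s) p
    rw [zero_add, add_comm m p] at h1
    rw [← h1]
    refine intervalIntegral.integral_congr fun s _ => ?_
    rw [smul_smul, ← Complex.exp_add]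
    congr 2
    push_cast
    ring
  rw [e, norm_smul, norm_ex, one_mul, norm_shift h]

lemma block (h : Stn a) (m x : ℝ) (q : ℕ) : ‖fa a (q * m) x‖ ≤ q * ‖fa a m x‖ := by
  induction q with
  | zero => simp [fa]
  | succ q ih =>
    have e : fa a (((q + 1 : ℕ) : ℝ) * m) x = fa a (q * m) x +
        ∫ s in ((q : ℝ) * m)..(q * m + m), Complex.exp (Complex.I * x * s) • a s := by
      unfold fa
      rw [intervalIntegral.integral_add_adjacent_intervals ((ci h.ct x).intervalIntegrable _ _)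
        ((ci h.ct x).intervalIntegrable _ _)]
      congr 1
      push_cast
      ring
    rw [e]
    refine (norm_add_le _ _).trans ?_
    rw [piece h]
    push_cast
    linarith

lemma fa_le (h : Stn a) (p q x : ℝ) (hpq : p ≤ q) :
    ‖∫ s in p..q, Complex.exp (Complex.I * x * s) • a s‖ ≤ ‖a 0‖ * (q - p) := by
  have h1 := intervalIntegral.norm_integral_le_of_norm_le_const (a := p) (b := q) (C := ‖a 0‖)
    (f := fun s : ℝ => Complex.exp (Complex.I * x * s) • a s) (fun s _ => by
      rw [norm_smul, norm_ex, one_mul, h.nrm])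
  rwa [abs_of_nonneg (by linarith)] at h1

lemma mono (h : Stn a) {m T : ℝ} (hm : 0 < m) (hT : 0 ≤ T) (x : ℝ) :
    ‖fa a T x‖ ≤ T / m * ‖fa a m x‖ + ‖a 0‖ * m := by
  set q := ⌊T / m⌋₊ with hq
  have h1 : (q : ℝ) ≤ T / m := Nat.floor_le (by positivity)
  have h2 : T / m < q + 1 := Nat.lt_floor_add_one _
  have h3 : (q : ℝ) * m ≤ T := (le_div_iff₀ hm).1 h1
  have h4 : T < (q + 1) * m := (div_lt_iff₀ hm).1 h2
  have e : fa a T x = fa a (q * m) x +
      ∫ s in ((q : ℝ) * m)..T, Complex.exp (Complex.I * x * s) • a s := by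
    unfold fa
    rw [intervalIntegral.integral_add_adjacent_intervals ((ci h.ct x).intervalIntegrable _ _)
      ((ci h.ct x).intervalIntegrable _ _)]
  rw [e]
  refine (norm_add_le _ _).trans (add_le_add ?_ ?_)
  · refine (block h m x q).trans ?_
    gcongr
  · refine (fa_le h _ _ x h3).trans ?_
    gcongr
    linarith

lemma fa_one (ha : Continuous a) : Tendsto (fun x : ℝ => ‖fa a 1 x‖) (cocompact ℝ) (𝓝 0) := by
  have h1 := Real.tendsto_integral_exp_smul_cocompact
    (fun s : ℝ => (Set.Ioc (0 : ℝ) 1).indicator a s)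
  set c : ℝ := -(2 * Real.pi)⁻¹ with hc
  have hc0 : c ≠ 0 := by
    rw [hc]
    have := Real.pi_pos
    exact neg_ne_zero.2 (by positivity)
  have h2 : Tendsto (fun x : ℝ => c * x) (cocompact ℝ) (cocompact ℝ) :=
    (Homeomorph.mulLeft₀ c hc0).isClosedEmbedding.tendsto_cocompact
  have h3 := (h1.comp h2).norm
  rw [norm_zero] at h3
  refine h3.congr fun x => ?_
  simp only [Function.comp_apply]
  congr 1
  unfold fa
  rw [intervalIntegral.integral_of_le zero_le_one, ← integral_indicator measurableSet_Ioc]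
  refine integral_congr_ae (Eventually.of_forall fun s => ?_)
  simp only
  by_cases hs : s ∈ Set.Ioc (0 : ℝ) 1
  · rw [Set.indicator_of_mem hs, Set.indicator_of_mem hs, Circle.smul_def, Real.fourierChar_apply]
    congr 2
    rw [hc]
    push_cast
    have : (Real.pi : ℂ) ≠ 0 := by exact_mod_cast Real.pi_ne_zero
    field_simp
  · rw [Set.indicator_of_notMem hs, Set.indicator_of_notMem hs, smul_zero]

/-- uniform convergence -/
theorem unif (h : Stn a) (hz : ∀ x : ℝ, Tendsto (fun N : ℕ => ‖fa a N x‖ / N) atTop (𝓝 0))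
    {δ : ℝ} (hδ : 0 < δ) : ∃ T₀ : ℝ, 0 < T₀ ∧ ∀ T, T₀ ≤ T → ∀ x, ‖fa a T x‖ ≤ δ * T := by
  by_contra hcon
  push Not at hcon
  have hc1 : ∀ n : ℕ, ∃ T : ℝ, (n : ℝ) + 1 ≤ T ∧ ∃ x, δ * T < ‖fa a T x‖ := fun n =>
    hcon (n + 1) (by positivity)
  choose T hT x hx using hc1
  have hT0 : ∀ n, 0 < T n := fun n => lt_of_lt_of_le (by positivity) (hT n)
  -- lower bounds
  have low : ∀ m : ℕ, 0 < m → ∀ᶠ n in atTop, (m : ℝ) * (δ / 2) ≤ ‖fa a m (x n)‖ := by
    intro m hm
    have hm' : (0 : ℝ) < m := by exact_mod_cast hm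
    obtain ⟨n₀, hn₀⟩ := exists_nat_ge (‖a 0‖ * m / (δ / 2))
    filter_upwards [eventually_ge_atTop n₀] with n hn
    have h1 := mono h hm' (hT0 n).le (x n)
    have h2 := hx n
    have h3 : ‖a 0‖ * m ≤ δ / 2 * T n := by
      have h4 : (n₀ : ℝ) ≤ T n := by
        have : (n₀ : ℝ) ≤ n := by exact_mod_cast hn
        linarith [hT n]
      have h5 : ‖a 0‖ * m / (δ / 2) ≤ T n := hn₀.trans h4
      rw [div_le_iff₀ (by positivity)] at h5
      linarith
    have h6 : δ / 2 * T n ≤ T n / m * ‖fa a m (x n)‖ := by linarith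
    have h7 : δ / 2 * T n = T n / m * (m * (δ / 2)) := by field_simp
    rw [h7] at h6
    exact le_of_mul_le_mul_left h6 (div_pos (hT0 n) hm')
  -- the frequencies stay bounded
  have hb := (tendsto_order.1 (fa_one h.ct)).2 (δ / 2) (by positivity)
  obtain ⟨S, hS, hSb⟩ := mem_cocompact.1 hb
  have hmem : ∀ᶠ n in atTop, x n ∈ S := by
    filter_upwards [low 1 one_pos] with n hn
    by_contra hcn
    have := hSb hcn
    simp only [Set.mem_ofPred_eq] at this
    rw [Nat.cast_one] at hn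
    linarith
  obtain ⟨n₁, hn₁⟩ := eventually_atTop.1 hmem
  obtain ⟨ν, -, φ, hφ, hlim⟩ := hS.tendsto_subseq (x := fun n => x (n + n₁))
    (fun n => hn₁ _ (Nat.le_add_left _ _))
  have hφ2 : Tendsto (fun n => φ n + n₁) atTop atTop :=
    tendsto_atTop_mono (fun n => Nat.le_add_right _ _) hφ.tendsto_atTop
  have hν : ∀ m : ℕ, 0 < m → (m : ℝ) * (δ / 2) ≤ ‖fa a m ν‖ := by
    intro m hm
    have h1 : Tendsto (fun n => ‖fa a m (x (φ n + n₁))‖) atTop (𝓝 ‖fa a m ν‖) :=
      (((fa_cont h.ct m).tendsto ν).comp hlim).norm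
    exact ge_of_tendsto h1 (hφ2.eventually (low m hm))
  have h2 := (tendsto_order.1 (hz ν)).2 (δ / 2) (by positivity)
  obtain ⟨m, hm1, hm2⟩ := (h2.and (eventually_gt_atTop 0)).exists
  have h3 := hν m hm2
  have hm' : (0 : ℝ) < m := by exact_mod_cast hm2
  rw [div_lt_iff₀ hm'] at hm1
  linarith

end Pool.Agent.Helper26.Wn
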