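import Pool.Agent.Helper26.Wn.Unif

/-! # Wiener's theorem for stationary curves -/

set_option autoImplicit false
set_option linter.unusedSectionVars false

open MeasureTheory Filter Topology
open scoped ENNReal NNReal ComplexConjugate InnerProductSpace

namespace Pool.Agent.Helper26.Wn

variable {X : Type} [NormedAddCommGroup X] [InnerProductSpace ℂ X] [CompleteSpace X] {a : ℝ → X}

/-- the frequencies -/
noncomputable def xk (T : ℝ) (k : ℤ) : ℝ := -(Real.pi * k / T)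

lemma fou {T : ℝ} (hT : 0 < T) {L : ℝ} (hL : L = 2 * T) (k : ℤ) (u : ℝ) :
    fourier (-k) (u : AddCircle L) = Complex.exp (Complex.I * xk T k * u) := by
  rw [fourier_coe_apply]
  congr 1
  unfold xk
  have : (T : ℂ) ≠ 0 := by exact_mod_cast hT.ne'
  rw [hL]
  push_cast
  field_simp

/-- Parseval for the coefficients of a vector -/
lemma par_v (ha : Continuous a) {T : ℝ} (hT : 0 < T) (v : X) (F : Finset ℤ) :
    ∑ k ∈ F, ‖⟪v, fa a T (xk T k)⟫_ℂ‖ ^ 2 ≤ 2 * T * ∫ s in (0 : ℝ)..T, ‖⟪v, a s⟫_ℂ‖ ^ 2 := by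
  have h0 : (0 : ℝ) < 2 * T := by linarith
  have hvc : Continuous fun s => ⟪v, a s⟫_ℂ := continuous_const.inner ha
  set f : ℝ → ℂ := (Set.Ioc (0 : ℝ) T).indicator fun s => ⟪v, a s⟫_ℂ with hf
  have hsub : Set.Ioc (0 : ℝ) (2 * T) ∩ Set.Ioc (0 : ℝ) T = Set.Ioc (0 : ℝ) T := by
    rw [Set.inter_eq_right]
    exact Set.Ioc_subset_Ioc_right (by linarith)
  obtain ⟨M, hM⟩ : ∃ M, ∀ s ∈ Set.Icc (0 : ℝ) T, ‖⟪v, a s⟫_ℂ‖ ≤ M :=
    isCompact_Icc.exists_bound_of_continuousOn hvc.continuousOn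
  have hM0 : 0 ≤ M := (norm_nonneg _).trans (hM 0 ⟨le_rfl, hT.le⟩)
  have hmem : MemLp f 2 (volume.restrict (Set.Ioc (0 : ℝ) (2 * T))) := by
    refine MemLp.of_bound ((hvc.stronglyMeasurable.indicator
      measurableSet_Ioc).aestronglyMeasurable) M (Eventually.of_forall fun s => ?_)
    rw [hf]
    by_cases hs : s ∈ Set.Ioc (0 : ℝ) T
    · rw [Set.indicator_of_mem hs]
      exact hM s ⟨hs.1.le, hs.2⟩
    · rw [Set.indicator_of_notMem hs, norm_zero]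
      exact hM0
  have hpar := hasSum_sq_fourierCoeffOn h0 hmem
  have e1 : ∫ s in (0 : ℝ)..(2 * T), ‖f s‖ ^ 2 = ∫ s in (0 : ℝ)..T, ‖⟪v, a s⟫_ℂ‖ ^ 2 := by
    rw [intervalIntegral.integral_of_le h0.le, intervalIntegral.integral_of_le hT.le]
    have e2 : (fun s => ‖f s‖ ^ 2) = (Set.Ioc (0 : ℝ) T).indicator fun s => ‖⟪v, a s⟫_ℂ‖ ^ 2 := by
      funext s
      rw [hf]
      by_cases hs : s ∈ Set.Ioc (0 : ℝ) T
      · rw [Set.indicator_of_mem hs, Set.indicator_of_mem hs]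
      · rw [Set.indicator_of_notMem hs, Set.indicator_of_notMem hs, norm_zero]
        norm_num
    rw [e2, setIntegral_indicator measurableSet_Ioc, hsub]
  have e3 : ∀ k : ℤ, fourierCoeffOn h0 f k = ((2 * T : ℝ) : ℂ)⁻¹ * ⟪v, fa a T (xk T k)⟫_ℂ := by
    intro k
    rw [fourierCoeffOn_eq_integral]
    have e4 : ∫ x in (0 : ℝ)..(2 * T), fourier (-k) (x : AddCircle (2 * T - 0)) • f x =
        ⟪v, fa a T (xk T k)⟫_ℂ := by
      have e5 : ⟪v, fa a T (xk T k)⟫_ℂ =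
          ∫ s in (0 : ℝ)..T, Complex.exp (Complex.I * xk T k * s) * ⟪v, a s⟫_ℂ := by
        unfold fa
        have h := ((innerSL ℂ v).intervalIntegral_comp_comm
          ((ci ha (xk T k)).intervalIntegrable (μ := volume) 0 T)).symm
        refine h.trans (intervalIntegral.integral_congr fun s _ => ?_)
        show ⟪v, Complex.exp (Complex.I * xk T k * s) • a s⟫_ℂ = _
        rw [inner_smul_right]
      rw [e5, intervalIntegral.integral_of_le h0.le, intervalIntegral.integral_of_le hT.le]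
      have e6 : (fun x : ℝ => fourier (-k) (x : AddCircle (2 * T - 0)) • f x) =
          (Set.Ioc (0 : ℝ) T).indicator fun s : ℝ =>
            Complex.exp (Complex.I * xk T k * s) * ⟪v, a s⟫_ℂ := by
        funext s
        rw [fou hT (sub_zero _), hf, smul_eq_mul]
        by_cases hs : s ∈ Set.Ioc (0 : ℝ) T
        · rw [Set.indicator_of_mem hs, Set.indicator_of_mem hs]
        · rw [Set.indicator_of_notMem hs, Set.indicator_of_notMem hs, mul_zero]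
      rw [e6, setIntegral_indicator measurableSet_Ioc, hsub]
    rw [e4, sub_zero, Complex.real_smul]
    push_cast
    ring
  rw [e1, sub_zero, smul_eq_mul] at hpar
  have h1 := sum_le_hasSum F (fun k _ => by positivity) hpar
  have e7 : ∀ k : ℤ, ‖⟪v, fa a T (xk T k)⟫_ℂ‖ ^ 2 = (2 * T) ^ 2 * ‖fourierCoeffOn h0 f k‖ ^ 2 := by
    intro k
    rw [e3, norm_mul, norm_inv, Complex.norm_real, Real.norm_of_nonneg h0.le]
    field_simp
  simp only [e7]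
  rw [← Finset.mul_sum]
  calc (2 * T) ^ 2 * ∑ k ∈ F, ‖fourierCoeffOn h0 f k‖ ^ 2 ≤
      (2 * T) ^ 2 * ((2 * T)⁻¹ * ∫ s in (0 : ℝ)..T, ‖⟪v, a s⟫_ℂ‖ ^ 2) := by gcongr
    _ = _ := by field_simp

/-- Bessel's inequality -/
lemma bess (h : Stn a) {T : ℝ} (hT : 0 < T) (F : Finset ℤ) :
    ∑ k ∈ F, ‖fa a T (xk T k)‖ ^ 2 ≤ 2 * T ^ 2 * ‖a 0‖ ^ 2 := by
  classical
  set S : Submodule ℂ X := Submodule.span ℂ ((F.image fun k => fa a T (xk T k) : Finset X) : Set X)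
    with hS
  have hfin : FiniteDimensional ℂ S := FiniteDimensional.span_finset ℂ _
  set b := stdOrthonormalBasis ℂ S with hb
  have hmem : ∀ k ∈ F, fa a T (xk T k) ∈ S := fun k hk =>
    Submodule.subset_span (Finset.mem_coe.2 (Finset.mem_image_of_mem _ hk))
  have hon : Orthonormal ℂ fun j => ((b j : S) : X) := by
    have h1 := b.orthonormal
    exact h1.comp_linearIsometry S.subtypeₗᵢ
  have h1 : ∀ k ∈ F, ‖fa a T (xk T k)‖ ^ 2 =
      ∑ j, ‖⟪((b j : S) : X), fa a T (xk T k)⟫_ℂ‖ ^ 2 := by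
    intro k hk
    have h2 := b.sum_sq_norm_inner_right ⟨_, hmem k hk⟩
    simpa using h2.symm
  rw [Finset.sum_congr rfl h1, Finset.sum_comm]
  have h2 : ∑ j, ∑ k ∈ F, ‖⟪((b j : S) : X), fa a T (xk T k)⟫_ℂ‖ ^ 2 ≤
      ∑ j, 2 * T * ∫ s in (0 : ℝ)..T, ‖⟪((b j : S) : X), a s⟫_ℂ‖ ^ 2 :=
    Finset.sum_le_sum fun j _ => par_v h.ct hT _ F
  refine h2.trans ?_
  have hc : ∀ j, Continuous fun s => ‖⟪((b j : S) : X), a s⟫_ℂ‖ ^ 2 := fun j =>
    (continuous_const.inner h.ct).norm.pow 2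
  rw [← Finset.mul_sum, ← intervalIntegral.integral_finsetSum fun j _ =>
    (hc j).intervalIntegrable _ _]
  have h3 : ∫ s in (0 : ℝ)..T, ∑ j, ‖⟪((b j : S) : X), a s⟫_ℂ‖ ^ 2 ≤
      ∫ s in (0 : ℝ)..T, ‖a 0‖ ^ 2 := by
    refine intervalIntegral.integral_mono_on hT.le
      ((continuous_finsetSum _ fun j _ => hc j).intervalIntegrable _ _)
      (continuous_const.intervalIntegrable _ _) fun s _ => ?_
    have h4 := hon.sum_inner_products_le (s := Finset.univ) (x := a s)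
    rwa [h.nrm s] at h4
  rw [intervalIntegral.integral_const, sub_zero, smul_eq_mul] at h3
  calc _ ≤ 2 * T * (T * ‖a 0‖ ^ 2) := by gcongr
    _ = _ := by ring

/-- the fundamental inequality -/
theorem wie0 (h : Stn a) {T : ℝ} (hT : 0 < T) {δ : ℝ} (hδ : 0 ≤ δ)
    (hs : ∀ x, ‖fa a T x‖ ≤ δ * T) :
    ∫ u in (-T)..T, ‖((1 - |u| / T : ℝ) : ℂ) * ⟪a 0, a u⟫_ℂ‖ ^ 2 ≤ T * δ ^ 2 * ‖a 0‖ ^ 2 := by
  have hab : -T < T := by linarith
  set g : ℝ → ℂ := fun u => ((1 - |u| / T : ℝ) : ℂ) * ⟪a 0, a u⟫_ℂ with hg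
  have hgc : Continuous g := by
    have := h.ctC
    rw [hg]
    refine Continuous.mul ?_ this
    fun_prop
  obtain ⟨M, hM⟩ : ∃ M, ∀ s ∈ Set.Icc (-T) T, ‖g s‖ ≤ M :=
    isCompact_Icc.exists_bound_of_continuousOn hgc.continuousOn
  have hmem : MemLp g 2 (volume.restrict (Set.Ioc (-T) T)) := by
    refine MemLp.of_bound hgc.aestronglyMeasurable M ?_
    filter_upwards [ae_restrict_mem measurableSet_Ioc] with s hs
    exact hM s ⟨hs.1.le, hs.2⟩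
  have hpar := hasSum_sq_fourierCoeffOn hab hmem
  have e1 : ∀ k : ℤ, fourierCoeffOn hab g k =
      ((‖fa a T (xk T k)‖ ^ 2 / (2 * T ^ 2) : ℝ) : ℂ) := by
    intro k
    rw [fourierCoeffOn_eq_integral]
    have e2 : ∫ x in (-T)..T, fourier (-k) (x : AddCircle (T - -T)) • g x =
        ((T : ℂ)⁻¹) * ((‖fa a T (xk T k)‖ ^ 2 : ℝ) : ℂ) := by
      rw [norm_fa h hT.le, ← intervalIntegral.integral_const_mul]
      refine intervalIntegral.integral_congr fun u _ => ?_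
      rw [fou hT (by ring), hg, smul_eq_mul]
      have : (T : ℂ) ≠ 0 := by exact_mod_cast hT.ne'
      push_cast
      field_simp
    rw [e2, Complex.real_smul]
    have : (T : ℂ) ≠ 0 := by exact_mod_cast hT.ne'
    push_cast
    field_simp
    ring
  have h1 : ((T - -T)⁻¹ • ∫ x in (-T)..T, ‖g x‖ ^ 2) ≤ δ ^ 2 * ‖a 0‖ ^ 2 / 2 := by
    refine hasSum_le_of_sum_le hpar fun F => ?_
    have h2 : ∀ k ∈ F, ‖fourierCoeffOn hab g k‖ ^ 2 ≤
        δ ^ 2 / 2 * (‖fa a T (xk T k)‖ ^ 2 / (2 * T ^ 2)) := by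
      intro k _
      have h3 : ‖fa a T (xk T k)‖ ^ 2 ≤ (δ * T) ^ 2 :=
        pow_le_pow_left₀ (norm_nonneg _) (hs _) 2
      have h5 : ‖fa a T (xk T k)‖ ^ 2 / (2 * T ^ 2) ≤ δ ^ 2 / 2 := by
        rw [div_le_iff₀ (by positivity)]
        calc ‖fa a T (xk T k)‖ ^ 2 ≤ (δ * T) ^ 2 := h3
          _ = _ := by ring
      rw [e1, Complex.norm_real, Real.norm_of_nonneg (by positivity), sq]
      exact mul_le_mul_of_nonneg_right h5 (by positivity)
    refine (Finset.sum_le_sum h2).trans ?_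
    rw [← Finset.mul_sum, ← Finset.sum_div]
    have h4 := bess h hT F
    calc δ ^ 2 / 2 * ((∑ k ∈ F, ‖fa a T (xk T k)‖ ^ 2) / (2 * T ^ 2)) ≤
        δ ^ 2 / 2 * ((2 * T ^ 2 * ‖a 0‖ ^ 2) / (2 * T ^ 2)) := by gcongr
      _ = _ := by field_simp
  rw [smul_eq_mul, inv_mul_le_iff₀ (by linarith)] at h1
  calc _ ≤ (T - -T) * (δ ^ 2 * ‖a 0‖ ^ 2 / 2) := h1
    _ = _ := by ring

/-- the autocorrelation tends to zero in the mean -/
theorem wie1 (h : Stn a) (hz : ∀ x : ℝ, Tendsto (fun N : ℕ => ‖fa a N x‖ / N) atTop (𝓝 0))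
    {ε : ℝ} (hε : 0 < ε) : ∃ M₀ : ℝ, 0 < M₀ ∧ ∀ M, M₀ ≤ M →
      ∫ u in (0 : ℝ)..M, ‖⟪a 0, a u⟫_ℂ‖ ^ 2 ≤ ε * M := by
  have hK : 0 ≤ ‖a 0‖ := norm_nonneg _
  obtain ⟨δ, hδ, hδe⟩ : ∃ δ : ℝ, 0 < δ ∧ 8 * δ ^ 2 * ‖a 0‖ ^ 2 ≤ ε := by
    refine ⟨√(ε / (8 * (‖a 0‖ ^ 2 + 1))), by positivity, ?_⟩
    rw [Real.sq_sqrt (by positivity)]
    have : 8 * (ε / (8 * (‖a 0‖ ^ 2 + 1))) * ‖a 0‖ ^ 2 = ε * (‖a 0‖ ^ 2 / (‖a 0‖ ^ 2 + 1)) := by
      field_simp
    rw [this]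
    have h2 : ‖a 0‖ ^ 2 / (‖a 0‖ ^ 2 + 1) ≤ 1 := by
      rw [div_le_one (by positivity)]
      linarith
    nlinarith
  obtain ⟨T₀, hT₀, hT⟩ := unif h hz hδ
  refine ⟨T₀, hT₀, fun M hM => ?_⟩
  have hM0 : 0 < M := hT₀.trans_le hM
  have h1 := wie0 h (T := 2 * M) (by linarith) hδ.le (hT (2 * M) (by linarith))
  set g : ℝ → ℝ := fun u => ‖((1 - |u| / (2 * M) : ℝ) : ℂ) * ⟪a 0, a u⟫_ℂ‖ ^ 2 with hg
  have hgc : Continuous g := by
    have := h.ctC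
    rw [hg]
    refine (Continuous.norm (Continuous.mul ?_ this)).pow 2
    fun_prop
  have hC2 : Continuous fun u => ‖⟪a 0, a u⟫_ℂ‖ ^ 2 := h.ctC.norm.pow 2
  have h2 : ∫ u in (0 : ℝ)..M, ‖⟪a 0, a u⟫_ℂ‖ ^ 2 ≤ 4 * ∫ u in (0 : ℝ)..M, g u := by
    rw [← intervalIntegral.integral_const_mul]
    refine intervalIntegral.integral_mono_on hM0.le (hC2.intervalIntegrable _ _)
      ((hgc.const_mul 4).intervalIntegrable _ _) fun u hu => ?_
    rw [hg]
    simp only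
    rw [norm_mul, mul_pow, Complex.norm_real, Real.norm_eq_abs, sq_abs, abs_of_nonneg hu.1]
    have h3 : 1 / 2 ≤ 1 - u / (2 * M) := by
      have : u / (2 * M) ≤ 1 / 2 := by
        rw [div_le_iff₀ (by positivity)]
        linarith [hu.2]
      linarith
    have h4 : 1 / 4 ≤ (1 - u / (2 * M)) ^ 2 := by nlinarith
    have h5 : 0 ≤ ‖⟪a 0, a u⟫_ℂ‖ ^ 2 := by positivity
    nlinarith
  have h3 : ∫ u in (0 : ℝ)..M, g u ≤ ∫ u in (-(2 * M))..(2 * M), g u := by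
    refine intervalIntegral.integral_mono_interval (by linarith) hM0.le (by linarith)
      (Eventually.of_forall fun u => by rw [hg]; positivity) (hgc.intervalIntegrable _ _)
  calc _ ≤ 4 * (2 * M * δ ^ 2 * ‖a 0‖ ^ 2) := h2.trans (by gcongr; exact h3.trans h1)
    _ = 8 * δ ^ 2 * ‖a 0‖ ^ 2 * M := by ring
    _ ≤ ε * M := by gcongr

end Pool.Agent.Helper26.Wn
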