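import Pool.Agent.Helper26.Wn.Mean
import Pool.Agent.Helper26.Wn.Cov

/-! # Strong Cesaro limits -/

set_option autoImplicit false
set_option linter.unusedSectionVars false

open MeasureTheory Filter Topology
open scoped ENNReal NNReal ComplexConjugate InnerProductSpace

namespace Pool.Agent.Helper26.Wn

open Pool.Agent.H5R2.NB Pool.Agent.Helper26.Nb Pool.Agent.Helper26.Cm Pool.Agent.Helper26.Dj

/-- strong Cesaro convergence -/
def Zm (c : ℝ → ℂ) : Prop := ∃ m : ℂ, Zc fun s => c s - m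

namespace Zm

variable {c c' : ℝ → ℂ}

lemma of (h : Zc c) : Zm c := ⟨0, by simpa using h⟩

lemma add (h : Zm c) (h' : Zm c') : Zm fun s => c s + c' s := by
  obtain ⟨m, hm⟩ := h
  obtain ⟨m', hm'⟩ := h'
  refine ⟨m + m', ?_⟩
  have := hm.add hm'
  have e : (fun s => c s + c' s - (m + m')) = fun s => (c s - m) + (c' s - m') := by
    funext s; ring
  rwa [e]

lemma smul (h : Zm c) (k : ℂ) : Zm fun s => k * c s := by
  obtain ⟨m, hm⟩ := h
  refine ⟨k * m, ?_⟩
  have := hm.smul k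
  have e : (fun s => k * c s - k * m) = fun s => k * (c s - m) := by
    funext s; ring
  rwa [e]

lemma sum {ι : Type} (s : Finset ι) {f : ι → ℝ → ℂ} (h : ∀ i ∈ s, Zm (f i)) :
    Zm fun t => ∑ i ∈ s, f i t := by
  classical
  induction s using Finset.induction_on with
  | empty => simpa using of Zc.zero
  | insert i s hi ih =>
    simp only [Finset.sum_insert hi]
    exact (h i (Finset.mem_insert_self i s)).add (ih fun j hj => h j (Finset.mem_insert_of_mem hj))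

/-- two limits are close if the functions are close -/
lemma close {m m' : ℂ} (h : Zc fun s => c s - m) (h' : Zc fun s => c' s - m') {δ : ℝ}
    (hd : ∀ s, ‖c s - c' s‖ ^ 2 ≤ δ) : ‖m - m'‖ ^ 2 ≤ 3 * δ := by
  have h1 := ((h.lim.const_mul 3).add (h'.lim.const_mul 3)).add_const (3 * δ)
  rw [mul_zero, add_zero, zero_add] at h1
  refine ge_of_tendsto h1 ?_
  filter_upwards [eventually_gt_atTop 0] with M hM
  have hc := h.ct
  have hc' := h'.ct
  have h2 : ∫ s in (0 : ℝ)..M, ‖m - m'‖ ^ 2 ≤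
      ∫ s in (0 : ℝ)..M, ((3 * ‖c s - m‖ ^ 2 + 3 * ‖c' s - m'‖ ^ 2) + 3 * δ) := by
    refine intervalIntegral.integral_mono_on hM.le (continuous_const.intervalIntegrable _ _)
      ((by fun_prop : Continuous fun s => ((3 * ‖c s - m‖ ^ 2 + 3 * ‖c' s - m'‖ ^ 2) +
        3 * δ)).intervalIntegrable _ _) fun s _ => ?_
    have e : m - m' = -(c s - m) + (c' s - m') + (c s - c' s) := by ring
    have h3 : ‖m - m'‖ ≤ ‖c s - m‖ + ‖c' s - m'‖ + ‖c s - c' s‖ := by
      rw [e]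
      refine (norm_add_le _ _).trans ?_
      gcongr
      refine (norm_add_le _ _).trans ?_
      rw [norm_neg]
    have h4 : ‖m - m'‖ ^ 2 ≤ (‖c s - m‖ + ‖c' s - m'‖ + ‖c s - c' s‖) ^ 2 :=
      pow_le_pow_left₀ (norm_nonneg _) h3 2
    have h5 := hd s
    nlinarith [sq_nonneg (‖c s - m‖ - ‖c' s - m'‖), sq_nonneg (‖c s - m‖ - ‖c s - c' s‖),
      sq_nonneg (‖c' s - m'‖ - ‖c s - c' s‖)]
  have i1 : IntervalIntegrable (fun s => 3 * ‖c s - m‖ ^ 2) volume 0 M :=
    (by fun_prop : Continuous fun s => 3 * ‖c s - m‖ ^ 2).intervalIntegrable _ _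
  have i2 : IntervalIntegrable (fun s => 3 * ‖c' s - m'‖ ^ 2) volume 0 M :=
    (by fun_prop : Continuous fun s => 3 * ‖c' s - m'‖ ^ 2).intervalIntegrable _ _
  rw [intervalIntegral.integral_add (i1.add i2) (continuous_const.intervalIntegrable _ _),
    intervalIntegral.integral_add i1 i2, intervalIntegral.integral_const,
    intervalIntegral.integral_const, intervalIntegral.integral_const_mul,
    intervalIntegral.integral_const_mul, sub_zero, smul_eq_mul, smul_eq_mul] at h2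
  calc ‖m - m'‖ ^ 2 = M⁻¹ * (M * ‖m - m'‖ ^ 2) := by field_simp
    _ ≤ M⁻¹ * (3 * (∫ s in (0 : ℝ)..M, ‖c s - m‖ ^ 2) + 3 * (∫ s in (0 : ℝ)..M, ‖c' s - m'‖ ^ 2) +
        M * (3 * δ)) := by gcongr
    _ = _ := by field_simp

lemma lim' (hc : Continuous c) (h : ∀ ε : ℝ, 0 < ε → ∃ c' : ℝ → ℂ, Zm c' ∧
    ∀ s, ‖c s - c' s‖ ^ 2 ≤ ε) : Zm c := by
  have hpos : ∀ n : ℕ, (0 : ℝ) < 1 / ((n : ℝ) + 1) := fun n => by positivity
  choose f hf hd using fun n : ℕ => h (1 / ((n : ℝ) + 1)) (hpos n)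
  choose m hm using hf
  have hcl : ∀ n k : ℕ, n ≤ k → ‖m n - m k‖ ^ 2 ≤ 12 * (1 / ((n : ℝ) + 1)) := by
    intro n k hnk
    have h1 := close (hm n) (hm k) (δ := 4 * (1 / ((n : ℝ) + 1))) (fun s => by
      have h2 := hd n s
      have h3 := hd k s
      have h4 : 1 / ((k : ℝ) + 1) ≤ 1 / ((n : ℝ) + 1) := by
        have : (n : ℝ) ≤ k := by exact_mod_cast hnk
        gcongr
      have e : f n s - f k s = -(c s - f n s) + (c s - f k s) := by ring
      have h5 : ‖f n s - f k s‖ ≤ ‖c s - f n s‖ + ‖c s - f k s‖ := by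
        rw [e]
        refine (norm_add_le _ _).trans ?_
        rw [norm_neg]
      have h6 : ‖f n s - f k s‖ ^ 2 ≤ (‖c s - f n s‖ + ‖c s - f k s‖) ^ 2 :=
        pow_le_pow_left₀ (norm_nonneg _) h5 2
      nlinarith [sq_nonneg (‖c s - f n s‖ - ‖c s - f k s‖)])
    linarith
  have hlim0 : Tendsto (fun n : ℕ => 12 * (1 / ((n : ℝ) + 1))) atTop (𝓝 0) := by
    have := (tendsto_one_div_add_atTop_nhds_zero_nat (𝕜 := ℝ)).const_mul 12
    rwa [mul_zero] at this
  have hcau : CauchySeq m := by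
    rw [Metric.cauchySeq_iff']
    intro ε hε
    obtain ⟨N, hN⟩ := ((tendsto_order.1 hlim0).2 (ε ^ 2) (by positivity)).exists
    refine ⟨N, fun n hn => ?_⟩
    rw [dist_comm, dist_eq_norm]
    have h1 := (hcl N n hn).trans_lt hN
    exact (sq_lt_sq₀ (norm_nonneg _) hε.le).1 h1
  obtain ⟨m₀, hm₀⟩ := cauchySeq_tendsto_of_complete hcau
  have hml : ∀ n : ℕ, ‖m n - m₀‖ ^ 2 ≤ 12 * (1 / ((n : ℝ) + 1)) := by
    intro n
    have h1 : Tendsto (fun k => ‖m n - m k‖ ^ 2) atTop (𝓝 (‖m n - m₀‖ ^ 2)) :=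
      ((tendsto_const_nhds.sub hm₀).norm).pow 2
    refine le_of_tendsto h1 ?_
    filter_upwards [eventually_ge_atTop n] with k hk
    exact hcl n k hk
  refine ⟨m₀, Zc.lim' (hc.sub continuous_const) fun ε hε => ?_⟩
  have hlim1 : Tendsto (fun n : ℕ => 26 * (1 / ((n : ℝ) + 1))) atTop (𝓝 0) := by
    have := (tendsto_one_div_add_atTop_nhds_zero_nat (𝕜 := ℝ)).const_mul 26
    rwa [mul_zero] at this
  obtain ⟨n, hn⟩ := ((tendsto_order.1 hlim1).2 ε hε).exists
  refine ⟨fun s => f n s - m n, hm n, fun s => ?_⟩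
  have h1 := hd n s
  have h2 := hml n
  have e : c s - m₀ - (f n s - m n) = (c s - f n s) + (m n - m₀) := by ring
  have h3 : ‖c s - m₀ - (f n s - m n)‖ ≤ ‖c s - f n s‖ + ‖m n - m₀‖ := by
    rw [e]
    exact norm_add_le _ _
  have h4 : ‖c s - m₀ - (f n s - m n)‖ ^ 2 ≤ (‖c s - f n s‖ + ‖m n - m₀‖) ^ 2 :=
    pow_le_pow_left₀ (norm_nonneg _) h3 2
  nlinarith [sq_nonneg (‖c s - f n s‖ - ‖m n - m₀‖)]

end Zm

end Pool.Agent.Helper26.Wn
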